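import Mathlib

/-!
Integral chains of the bar complex of a group in degrees 2 and 3, the filling norm, and the
cheap fillings of the torus cycles `[w^n|w] - [w|w^n]`.
-/

set_option autoImplicit false

namespace Pool.Agent.Lib.FVol

/-- integral 2-chains of the bar complex of `G` -/
abbrev C2 (G : Type*) := (G × G) →₀ ℤ

/-- integral 3-chains of the bar complex of `G` -/
abbrev C3 (G : Type*) := (G × G × G) →₀ ℤ

/-- the generator `[a|b]` -/
noncomputable def e2 {G : Type*} (a b : G) : C2 G := Finsupp.single (a, b) 1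

/-- the generator `[a|b|c]` -/
noncomputable def e3 {G : Type*} (a b c : G) : C3 G := Finsupp.single (a, b, c) 1

/-- the boundary `[a|b|c] ↦ [b|c] - [ab|c] + [a|bc] - [a|b]` -/
noncomputable def bd (G : Type*) [Group G] : C3 G →ₗ[ℤ] C2 G :=
  Finsupp.linearCombination ℤ (fun x : G × G × G =>
    e2 x.2.1 x.2.2 - e2 (x.1 * x.2.1) x.2.2 + e2 x.1 (x.2.1 * x.2.2) - e2 x.1 x.2.1)

/-- the `ℓ¹`-norm of an integral chain -/
noncomputable def nrm {X : Type*} (c : X →₀ ℤ) : ℕ := c.sum fun _ z => z.natAbs

section nrm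

variable {X : Type*}

theorem nrm_eq (c : X →₀ ℤ) (s : Finset X) (h : c.support ⊆ s) :
    nrm c = ∑ x ∈ s, (c x).natAbs :=
  Finsupp.sum_of_support_subset c h _ (by simp)

@[simp] theorem nrm_zero : nrm (0 : X →₀ ℤ) = 0 := by simp [nrm]

@[simp] theorem nrm_neg (c : X →₀ ℤ) : nrm (-c) = nrm c := by
  classical
  rw [nrm_eq (-c) c.support (by rw [Finsupp.support_neg]), nrm_eq c c.support (le_refl _)]
  simp

theorem nrm_add_le (b c : X →₀ ℤ) : nrm (b + c) ≤ nrm b + nrm c := by
  classical
  rw [nrm_eq (b + c) (b.support ∪ c.support) Finsupp.support_add,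
    nrm_eq b (b.support ∪ c.support) Finset.subset_union_left,
    nrm_eq c (b.support ∪ c.support) Finset.subset_union_right, ← Finset.sum_add_distrib]
  exact Finset.sum_le_sum fun x _ => Int.natAbs_add_le _ _

theorem nrm_single (x : X) (z : ℤ) : nrm (Finsupp.single x z) = z.natAbs := by
  simp [nrm, Finsupp.sum_single_index]

theorem nrm_mapDomain_le {Y : Type*} (f : X → Y) (c : X →₀ ℤ) :
    nrm (c.mapDomain f) ≤ nrm c := by
  classical
  induction c using Finsupp.induction with
  | zero => simp
  | single_add a b c ha hb ih =>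
    rw [Finsupp.mapDomain_add, Finsupp.mapDomain_single]
    refine (nrm_add_le _ _).trans ?_
    have h1 : nrm (Finsupp.single a b + c) = b.natAbs + nrm c := by
      rw [nrm_eq (Finsupp.single a b + c) (insert a c.support) ?_,
        Finset.sum_insert ha, nrm_eq c c.support (le_refl _)]
      · have ha' : c a = 0 := by simpa using ha
        congr 1
        · simp [ha']
        · refine Finset.sum_congr rfl fun x hx => ?_
          have hxa : a ≠ x := fun h => ha (h ▸ hx)
          simp [Finsupp.single_apply, hxa]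
      · refine Finsupp.support_add.trans ?_
        intro x hx
        rcases Finset.mem_union.1 hx with h | h
        · have := Finsupp.support_single_subset h
          simp only [Finset.mem_singleton] at this
          simp [this]
        · exact Finset.mem_insert_of_mem h
    rw [h1, nrm_single]
    omega

end nrm

section fil

variable {G : Type*} [Group G]

/-- `c` is the boundary of an integral 3-chain of norm at most `r` -/
def Fil (r : ℝ) (c : C2 G) : Prop := ∃ b : C3 G, bd G b = c ∧ (nrm b : ℝ) ≤ r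

theorem Fil.mono {r s : ℝ} {c : C2 G} (h : Fil r c) (hrs : r ≤ s) : Fil s c := by
  obtain ⟨b, h1, h2⟩ := h
  exact ⟨b, h1, h2.trans hrs⟩

theorem Fil.zero : Fil 0 (0 : C2 G) := ⟨0, by simp, by simp⟩

theorem Fil.zero' {r : ℝ} (hr : 0 ≤ r) : Fil r (0 : C2 G) := Fil.zero.mono hr

theorem Fil.add {r s : ℝ} {c c' : C2 G} (h : Fil r c) (h' : Fil s c') : Fil (r + s) (c + c') := by
  obtain ⟨b, h1, h2⟩ := h
  obtain ⟨b', h1', h2'⟩ := h'
  refine ⟨b + b', by rw [map_add, h1, h1'], ?_⟩
  have := nrm_add_le b b'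
  have h3 : (nrm (b + b') : ℝ) ≤ nrm b + nrm b' := by exact_mod_cast this
  linarith

theorem Fil.neg {r : ℝ} {c : C2 G} (h : Fil r c) : Fil r (-c) := by
  obtain ⟨b, h1, h2⟩ := h
  exact ⟨-b, by rw [map_neg, h1], by rwa [nrm_neg]⟩

theorem Fil.sub {r s : ℝ} {c c' : C2 G} (h : Fil r c) (h' : Fil s c') : Fil (r + s) (c - c') := by
  rw [sub_eq_add_neg]
  exact h.add h'.neg

theorem Fil.of_eq {r s : ℝ} {c c' : C2 G} (h : Fil r c) (hrs : r ≤ s) (hc : c = c') : Fil s c' :=
  hc ▸ h.mono hrs

theorem bd_e3 (a b c : G) :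
    bd G (e3 a b c) = e2 b c - e2 (a * b) c + e2 a (b * c) - e2 a b := by
  simp [bd, e3, Finsupp.linearCombination_single]

theorem fil_e3 (a b c : G) : Fil 1 (e2 b c - e2 (a * b) c + e2 a (b * c) - e2 a b) :=
  ⟨e3 a b c, bd_e3 a b c, by rw [e3, nrm_single]; norm_num⟩

theorem fil_one_left (b : G) : Fil 1 (e2 1 b - e2 1 1) := by
  have := fil_e3 (1 : G) 1 b
  refine this.of_eq (le_refl _) ?_
  simp only [one_mul]
  abel

theorem fil_one_right (b : G) : Fil 1 (e2 b 1 - e2 1 1) := by
  have := (fil_e3 b (1 : G) 1).neg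
  refine this.of_eq (le_refl _) ?_
  simp only [mul_one]
  abel

/-- the torus chain -/
noncomputable def tt (a b : G) : C2 G := e2 a b - e2 b a

theorem tt_anti (a b : G) : tt a b = - tt b a := by simp [tt]

@[simp] theorem tt_self (a : G) : tt a a = 0 := by simp [tt]

theorem fil_tt_one (b : G) : Fil 2 (tt 1 b) := by
  have := (fil_one_left b).sub (fil_one_right b)
  refine this.of_eq (by norm_num) ?_
  rw [tt]
  abel

theorem fil_tt_mul (a b c : G) (hac : a * c = c * a) (hbc : b * c = c * b) :
    Fil 3 (tt (a * b) c - tt a c - tt b c) := by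
  have h1 := (fil_e3 a b c).neg
  have h2 := fil_e3 a c b
  have h3 := (fil_e3 c a b).neg
  refine ((h1.add h2).add h3).of_eq (by norm_num) ?_
  rw [← hac, ← hbc]
  simp only [tt]
  abel

/-- `T(p,q)` for powers of one element -/
noncomputable def TT (w : G) (p q : ℤ) : C2 G := tt (w ^ p) (w ^ q)

variable (w : G)

theorem TT_anti (p q : ℤ) : TT w p q = - TT w q p := tt_anti _ _

@[simp] theorem TT_self (p : ℤ) : TT w p p = 0 := tt_self _

theorem fil_TT_zero (q : ℤ) : Fil 2 (TT w 0 q) := by
  rw [TT, zpow_zero]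
  exact fil_tt_one _

theorem fil_TT_add (p p' q : ℤ) : Fil 3 (TT w (p + p') q - TT w p q - TT w p' q) := by
  have := fil_tt_mul (w ^ p) (w ^ p') (w ^ q) (by rw [← zpow_add, ← zpow_add, add_comm])
    (by rw [← zpow_add, ← zpow_add, add_comm])
  rw [← zpow_add] at this
  exact this

theorem fil_TT_add' (p q q' : ℤ) : Fil 3 (TT w p (q + q') - TT w p q - TT w p q') := by
  have := (fil_TT_add w q q' p).neg
  refine this.of_eq (le_refl _) ?_
  rw [TT_anti w p (q + q'), TT_anti w p q, TT_anti w p q']
  abel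

/-- moving a multiplicity from one side to the other costs a logarithm -/
theorem fil_TT_move (m : ℕ) : ∀ p q : ℤ,
    Fil (12 * ((Nat.log 2 m : ℕ) + 1 : ℝ) + 4) (TT w (m * p) q - TT w p (m * q)) := by
  induction m using Nat.strong_induction_on with
  | _ m ih =>
    intro p q
    rcases Nat.eq_zero_or_pos m with hm | hm
    · subst hm
      have h1 := fil_TT_zero w q
      have h2 := (fil_TT_zero w p)
      refine (h1.add h2).of_eq ?_ ?_
      · simp
        norm_num
      · simp only [Nat.cast_zero, zero_mul]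
        rw [TT_anti w p 0]
        abel
    · -- m = 2 m₁ + e
      obtain ⟨m₁, e, he, hme⟩ : ∃ m₁ e : ℕ, e < 2 ∧ m = 2 * m₁ + e :=
        ⟨m / 2, m % 2, Nat.mod_lt _ (by norm_num), (Nat.div_add_mod m 2).symm⟩
      have hm₁ : m₁ < m := by omega
      have hlog : (1 ≤ m₁ → Nat.log 2 m = Nat.log 2 m₁ + 1) := by
        intro h
        have : m₁ = m / 2 := by omega
        rw [this, Nat.log_div_base]
        have : 1 ≤ Nat.log 2 m := by
          have := Nat.log_pos (b := 2) (n := m) (by norm_num) (by omega)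
          omega
        omega
      have hb : (12 : ℝ) + (if m₁ = 0 then 4 else 12 * ((Nat.log 2 m₁ : ℕ) + 1 : ℝ) + 4)
          ≤ 12 * ((Nat.log 2 m : ℕ) + 1 : ℝ) + 4 := by
        split_ifs with h
        · have : (0 : ℝ) ≤ (Nat.log 2 m : ℕ) := Nat.cast_nonneg _
          linarith
        · have := hlog (by omega)
          rw [this]
          push_cast
          linarith
      -- the inductive step
      have key : Fil (if m₁ = 0 then 4 else 12 * ((Nat.log 2 m₁ : ℕ) + 1 : ℝ) + 4)
          (TT w (m₁ * p) (2 * q) - TT w p (m₁ * (2 * q))) := by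
        split_ifs with h
        · subst h
          have h1 := fil_TT_zero w (2 * q)
          have h2 := (fil_TT_zero w p)
          refine (h1.add h2).of_eq (by norm_num) ?_
          simp only [Nat.cast_zero, zero_mul]
          rw [TT_anti w p 0]
          abel
        · exact ih m₁ hm₁ p (2 * q)
      -- T(2 m₁ p, q) ~ 2 T(m₁ p, q) ~ T(m₁ p, 2 q)
      have h1 := fil_TT_add w (m₁ * p) (m₁ * p) q
      have h2 := (fil_TT_add' w (m₁ * p) q q).neg
      rcases Nat.lt_or_ge e 1 with h0 | h0
      · have he0 : e = 0 := by omega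
        subst he0
        refine ((h1.add h2).add key).of_eq (by linarith) ?_
        have e1 : (m : ℤ) * p = m₁ * p + m₁ * p := by rw [hme]; push_cast; ring
        have e2 : (m : ℤ) * q = m₁ * (2 * q) := by rw [hme]; push_cast; ring
        have e3 : (2 : ℤ) * q = q + q := by ring
        rw [e1, e2, e3]
        abel
      · have he1 : e = 1 := by omega
        subst he1
        have h3 := fil_TT_add w (m₁ * p + m₁ * p) p q
        have h4 := (fil_TT_add' w p (m₁ * (2 * q)) q).neg
        refine ((((h1.add h2).add key).add h3).add h4).of_eq (by linarith) ?_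
        have e1 : (m : ℤ) * p = m₁ * p + m₁ * p + p := by rw [hme]; push_cast; ring
        have e2 : (m : ℤ) * q = m₁ * (2 * q) + q := by rw [hme]; push_cast; ring
        have e3 : (2 : ℤ) * q = q + q := by ring
        rw [e1, e2, e3]
        abel

theorem fil_TT_lin (n : ℕ) : Fil (2 + 3 * (n : ℝ)) (TT w n 1) := by
  induction n with
  | zero => simpa using fil_TT_zero w 1
  | succ n ih =>
    have h := fil_TT_add w n 1 1
    refine (h.add ih).of_eq (by push_cast; linarith) ?_
    push_cast
    simp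

/-- the torus cycle `T(n,1)` has a filling of logarithmic norm -/
theorem fil_TT_log (n : ℕ) : Fil (62 * ((Nat.log 2 n : ℕ) + 1 : ℝ)) (TT w n 1) := by
  induction n using Nat.strong_induction_on with
  | _ n ih =>
    rcases Nat.lt_or_ge n 16 with hn | hn
    · refine (fil_TT_lin w n).mono ?_
      have h1 : (n : ℝ) ≤ 15 := by exact_mod_cast (by omega : n ≤ 15)
      have h2 : (0 : ℝ) ≤ (Nat.log 2 n : ℕ) := Nat.cast_nonneg _
      linarith
    · obtain ⟨s, hs⟩ : ∃ s, s = Nat.sqrt n := ⟨_, rfl⟩
      have hs1 : s * s ≤ n := by rw [hs]; exact Nat.sqrt_le n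
      have hs2 : n < (s + 1) * (s + 1) := by rw [hs]; exact Nat.lt_succ_sqrt n
      obtain ⟨r, hr⟩ : ∃ r, n = s * s + r := ⟨n - s * s, by omega⟩
      have hr2 : r ≤ 2 * s := by nlinarith
      have hs4 : 4 ≤ s := by
        by_contra h
        push_neg at h
        have : (s + 1) * (s + 1) ≤ 4 * 4 := Nat.mul_le_mul (by omega) (by omega)
        omega
      have hrn : r < n := by nlinarith
      -- logarithms
      have hL4 : 4 ≤ Nat.log 2 n := by
        have := Nat.log_mono_right (b := 2) hn
        have h16 : Nat.log 2 16 = 4 := by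
          rw [show (16 : ℕ) = 2 ^ 4 by norm_num, Nat.log_pow (by norm_num)]
        omega
      have hls : 2 * Nat.log 2 s ≤ Nat.log 2 n := by
        have hpow : 2 ^ (Nat.log 2 s) ≤ s := Nat.pow_log_le_self 2 (by omega)
        have : 2 ^ (2 * Nat.log 2 s) ≤ n := by
          calc 2 ^ (2 * Nat.log 2 s) = 2 ^ (Nat.log 2 s) * 2 ^ (Nat.log 2 s) := by ring
            _ ≤ s * s := Nat.mul_le_mul hpow hpow
            _ ≤ n := hs1
        exact Nat.le_log_of_pow_le (by norm_num) this
      have hlr : Nat.log 2 r ≤ Nat.log 2 s + 1 := by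
        have h1 : Nat.log 2 r ≤ Nat.log 2 (2 * s) := Nat.log_mono_right hr2
        have h2 : Nat.log 2 (2 * s) = Nat.log 2 s + 1 := by
          rw [mul_comm]
          exact Nat.log_mul_base (by norm_num) (by omega)
        omega
      have h1 := fil_TT_add w (s * s) r 1
      have h2 := fil_TT_move w s s 1
      have h3 := ih r hrn
      have hcast : ((n : ℕ) : ℤ) = s * s + r := by exact_mod_cast hr
      refine ((h1.add h2).add h3).of_eq ?_ ?_
      · have a1 : (4 : ℝ) ≤ (Nat.log 2 n : ℕ) := by exact_mod_cast hL4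
        have a2 : 2 * ((Nat.log 2 s : ℕ) : ℝ) ≤ (Nat.log 2 n : ℕ) := by exact_mod_cast hls
        have a3 : ((Nat.log 2 r : ℕ) : ℝ) ≤ (Nat.log 2 s : ℕ) + 1 := by exact_mod_cast hlr
        nlinarith
      · rw [hcast]
        simp only [mul_one, TT_self]
        abel

/-- the same for negative powers, in the form used for twists -/
theorem fil_tt_neg_log (n : ℕ) :
    Fil (62 * ((Nat.log 2 n : ℕ) + 1 : ℝ) + 5) (tt w (w ^ n)⁻¹) := by
  have h1 := fil_TT_log w n
  have h2 := fil_TT_add w (n : ℤ) (-(n : ℤ)) 1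
  have h3 := (fil_TT_zero w 1).neg
  refine ((h1.add h2).add h3).of_eq (by linarith) ?_
  have e1 : tt w (w ^ n)⁻¹ = - TT w (-(n : ℤ)) 1 := by
    rw [TT, tt_anti]
    simp
  rw [e1, add_neg_cancel]
  abel

end fil

end Pool.Agent.Lib.FVol
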