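import Pool.Agent.Lib.FVol.Types

/-!
The polygon chain is a cycle.
-/

set_option autoImplicit false

namespace Pool.Agent.Lib.FVol

variable {A V G : Type*} [Group G]

/-- the boundary `[a|b] ↦ [b] - [ab] + [a]` -/
noncomputable def bd2 (G : Type*) [Group G] : C2 G →ₗ[ℤ] (G →₀ ℤ) :=
  Finsupp.linearCombination ℤ (fun x : G × G =>
    Finsupp.single x.2 1 - Finsupp.single (x.1 * x.2) 1 + Finsupp.single x.1 1)

theorem bd2_e2 (a b : G) : bd2 G (e2 a b) =
    Finsupp.single b 1 - Finsupp.single (a * b) 1 + Finsupp.single a 1 := by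
  simp [bd2, e2, Finsupp.linearCombination_single]

/-- signed sum over a word -/
noncomputable def ssum {M : Type*} [AddCommGroup M] (E : A → M) : List (A × Bool) → M
  | [] => 0
  | z :: W => (if z.2 then E z.1 else - E z.1) + ssum E W

theorem ssum_eq {M : Type*} [AddCommGroup M] [DecidableEq A] [Fintype A] (E : A → M)
    (W : List (A × Bool)) :
    ssum E W = ∑ a, ((occ (a, true) W : ℤ) - occ (a, false) W) • E a := by
  induction W with
  | nil => simp [ssum]
  | cons z W ih =>
    rw [ssum, ih]
    simp only [occ_cons]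
    have h1 : (if z.2 then E z.1 else - E z.1)
      = ∑ a, (((if z = (a, true) then 1 else 0 : ℤ)) - (if z = (a, false) then 1 else 0 : ℤ)) •
      E a := by
      rw [Finset.sum_eq_single z.1]
      · rcases z with ⟨a, s⟩
        cases s <;> simp
      · intro b _ hb
        have h1 : z ≠ (b, true) := fun e => hb (by rw [e])
        have h2 : z ≠ (b, false) := fun e => hb (by rw [e])
        simp [h1, h2]
      · intro h
        exact absurd (Finset.mem_univ _) h
    rw [h1, ← Finset.sum_add_distrib]
    refine Finset.sum_congr rfl fun a _ => ?_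
    rw [← add_smul]
    congr 1
    push_cast
    ring

theorem bd2_kap (g : A → G) (z : A × Bool) :
    bd2 G (kap g z) + Finsupp.single (slab g z) 1
      = if z.2 then Finsupp.single (g z.1) 1 else - Finsupp.single (g z.1) 1 := by
  rcases z with ⟨a, s⟩
  cases s
  · simp only [kap, slab, Bool.false_eq_true, if_false, map_neg, map_add, bd2_e2, mul_inv_cancel,
      mul_one]
    abel
  · simp [kap, slab]

theorem bd2_fan (g : A → G) (W : List (A × Bool)) : ∀ p : G,
    bd2 G (fan g p W) = ssum (fun a => Finsupp.single (g a) (1 : ℤ)) W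
      - Finsupp.single (p * wpr g W) 1 + Finsupp.single p 1 := by
  induction W with
  | nil => intro p; simp [ssum]
  | cons z W ih =>
    intro p
    rw [fan_cons, map_add, map_add, ih, bd2_e2, ssum, ← bd2_kap, wpr_cons, mul_assoc]
    abel

/-- the polygon chain is a cycle -/
theorem bd2_cyc [DecidableEq A] [Fintype A] {d : Dat A V G} (hd : Good d) :
    bd2 G (cyc d) = 0 := by
  have hes : ssum (fun a => Finsupp.single (d.lab a) (1 : ℤ)) (d.row true)
      = ssum (fun a => Finsupp.single (d.lab a) (1 : ℤ)) (d.row false) := by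
    rw [ssum_eq, ssum_eq]
    refine Finset.sum_congr rfl fun a _ => ?_
    have := hd.sgn (a, true)
    rw [show sinv (a, true) = (a, false) from rfl] at this
    rw [this]
  rw [cyc, map_sub, bd2_fan, bd2_fan, hes, hd.rel]
  abel

end Pool.Agent.Lib.FVol
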