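import Pool.Agent.Lib.FVol.Tw

/-!
The filling norm, the limit of `fill(φ^k z - z)/k`, and the bound.
-/

set_option autoImplicit false

namespace Pool.Agent.Lib.FVol

open Filter Topology

variable {A V G : Type*} [Group G]

/-- The filling norm of an integral 2-chain: the least `ℓ¹`-norm of an integral 3-chain with
this boundary. -/
noncomputable def fill (c : C2 G) : ℕ := sInf {N : ℕ | ∃ b : C3 G, bd G b = c ∧ nrm b = N}

theorem fill_le {r : ℝ} {c : C2 G} (h : Fil r c) : (fill c : ℝ) ≤ r := by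
  obtain ⟨b, h1, h2⟩ := h
  have : fill c ≤ nrm b := Nat.sInf_le ⟨b, h1, rfl⟩
  have h3 : (fill c : ℝ) ≤ nrm b := by exact_mod_cast this
  linarith

theorem fil_fill {r : ℝ} {c : C2 G} (h : Fil r c) : Fil (fill c : ℝ) c := by
  obtain ⟨b, h1, h2⟩ := h
  have hne : {N : ℕ | ∃ b : C3 G, bd G b = c ∧ nrm b = N}.Nonempty := ⟨nrm b, b, h1, rfl⟩
  obtain ⟨b', h3, h4⟩ := Nat.sInf_mem hne
  exact ⟨b', h3, by rw [h4]; exact le_refl _⟩

theorem fill_subadd (φ : G →* G) (z : C2 G) (R : ℕ → ℝ)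
    (hR : ∀ k, Fil (R k) (push (hpow φ k) z - z)) :
    Subadditive (fun k => (fill (push (hpow φ k) z - z) : ℝ)) := by
  intro m n
  have h1 := (fil_fill (hR n)).push (hpow φ m)
  have h2 := fil_fill (hR m)
  have h3 : Fil ((fill (push (hpow φ n) z - z) : ℝ) + fill (push (hpow φ m) z - z))
      (push (hpow φ (m + n)) z - z) := by
    refine (h1.add h2).of_eq (le_refl _) ?_
    rw [push_sub, hpow_add, push_comp]
    abel
  have := fill_le h3
  show (fill (push (hpow φ (m + n)) z - z) : ℝ) ≤ _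
  linarith

theorem exists_limit (φ : G →* G) (z : C2 G) (R : ℕ → ℝ)
    (hR : ∀ k, Fil (R k) (push (hpow φ k) z - z)) :
    ∃ F : ℝ, Tendsto (fun k : ℕ => (fill (push (hpow φ k) z - z) : ℝ) / k) atTop (𝓝 F) := by
  have hsub := fill_subadd φ z R hR
  refine ⟨hsub.lim, hsub.tendsto_lim ⟨0, ?_⟩⟩
  rintro x ⟨k, rfl⟩
  positivity

variable [DecidableEq A] [Fintype A]

/-- **the bound**: for every periodic Rauzy-Veech path with stretch factor `μ` the integral
filling volume is at most `C_n log μ`, where `n` is the number of letters. -/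
theorem filling_volume_le {φ : G →* G} {c : V → G} {μ : ℝ} {d : Dat A V G} (hd : Good d)
    (hμ : 1 < μ) (h : Relation.ReflTransGen Rv d (tw φ c μ d)) :
    ∃ F : ℝ, Tendsto (fun k : ℕ => (fill (push (hpow φ k) (cyc d) - cyc d) : ℝ) / k) atTop (𝓝 F) ∧
      F ≤ (56 * (Fintype.card A : ℝ) + 73) * ((Fintype.card A : ℝ) + 2) * (Fintype.card A : ℝ)
        * (Real.log μ / Real.log 2) := by
  have hμ0 : 0 < μ := zero_lt_one.trans hμ
  obtain ⟨F, hF⟩ := exists_limit φ (cyc d) _ (fil_iter hd h hμ)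
  refine ⟨F, hF, ?_⟩
  set n : ℝ := (Fintype.card A : ℝ) with hn
  set K : ℝ := (56 * n + 73) * (n + 2) with hK
  set S : ℝ := ∑ a, Real.logb 2 ((∑ b, d.lam b) / d.lam a) with hS
  have hbound : ∀ k : ℕ, 1 ≤ k → (fill (push (hpow φ k) (cyc d) - cyc d) : ℝ) / k
      ≤ K * n * (Real.log μ / Real.log 2) + (K * (S + 1) + 16 * n) * (1 / (k : ℝ)) := by
    intro k hk
    have hk0 : (0 : ℝ) < k := by exact_mod_cast hk
    have h1 := fill_le (fil_iter hd h hμ k)
    have h2 : ∑ a, Real.logb 2 (μ ^ k * ((∑ b, d.lam b) / d.lam a))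
        = n * (k * (Real.log μ / Real.log 2)) + S := by
      have h3 : ∀ a ∈ (Finset.univ : Finset A),
          Real.logb 2 (μ ^ k * ((∑ b, d.lam b) / d.lam a))
          = k * (Real.log μ / Real.log 2) + Real.logb 2 ((∑ b, d.lam b) / d.lam a) := by
        intro a _
        have hpos : 0 < (∑ b, d.lam b) / d.lam a := by
          have : 0 < ∑ b, d.lam b := Finset.sum_pos (fun b _ => hd.pos b) ⟨a, Finset.mem_univ a⟩
          exact div_pos this (hd.pos a)
        rw [Real.logb_mul (pow_pos hμ0 k).ne' hpos.ne', Real.logb_pow]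
        rfl
      rw [Finset.sum_congr rfl h3, Finset.sum_add_distrib, Finset.sum_const, Finset.card_univ,
        nsmul_eq_mul]
    rw [h2, ← hn, ← hK] at h1
    rw [div_le_iff₀ hk0]
    refine h1.trans (le_of_eq ?_)
    field_simp
    ring
  have hlim : Tendsto (fun k : ℕ => K * n * (Real.log μ / Real.log 2)
      + (K * (S + 1) + 16 * n) * (1 / (k : ℝ))) atTop
      (𝓝 (K * n * (Real.log μ / Real.log 2) + (K * (S + 1) + 16 * n) * 0)) :=
    (tendsto_one_div_atTop_nhds_zero_nat.const_mul _).const_add _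
  rw [mul_zero, add_zero] at hlim
  exact le_of_tendsto_of_tendsto hF hlim (eventually_atTop.2 ⟨1, hbound⟩)

end Pool.Agent.Lib.FVol
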