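import Pool.Agent.Lib.FVol.Types

/-!
Homomorphisms and changes of the base paths (gauge transformations) of the labels.
-/

set_option autoImplicit false

namespace Pool.Agent.Lib.FVol

variable {A V G : Type*} [Group G]

/-- the iterates of an endomorphism -/
def hpow (φ : G →* G) : ℕ → (G →* G)
  | 0 => MonoidHom.id G
  | k + 1 => φ.comp (hpow φ k)

theorem hpow_add (φ : G →* G) (m n : ℕ) : hpow φ (m + n) = (hpow φ m).comp (hpow φ n) := by
  induction m with
  | zero =>
    rw [Nat.zero_add]
    rfl
  | succ m ih =>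
    rw [Nat.succ_add]
    show φ.comp (hpow φ (m + n)) = (φ.comp (hpow φ m)).comp (hpow φ n)
    rw [ih, MonoidHom.comp_assoc]

/-- the action of a homomorphism on 2-chains -/
noncomputable def push (φ : G →* G) (c : C2 G) : C2 G :=
  c.mapDomain (fun x => (φ x.1, φ x.2))

/-- the action of a homomorphism on 3-chains -/
noncomputable def push3 (φ : G →* G) (c : C3 G) : C3 G :=
  c.mapDomain (fun x => (φ x.1, φ x.2.1, φ x.2.2))

theorem push_zero (φ : G →* G) : push φ (0 : C2 G) = 0 := Finsupp.mapDomain_zero

theorem push_add (φ : G →* G) (c c' : C2 G) : push φ (c + c') = push φ c + push φ c' :=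
  Finsupp.mapDomain_add

theorem push_neg (φ : G →* G) (c : C2 G) : push φ (-c) = - push φ c := by
  have h : push φ (-c) + push φ c = 0 := by
    rw [← push_add, neg_add_cancel, push_zero]
  exact eq_neg_of_add_eq_zero_left h

theorem push_sub (φ : G →* G) (c c' : C2 G) : push φ (c - c') = push φ c - push φ c' := by
  rw [sub_eq_add_neg, push_add, push_neg, ← sub_eq_add_neg]

theorem push_e2 (φ : G →* G) (a b : G) : push φ (e2 a b) = e2 (φ a) (φ b) := by
  simp [push, e2, Finsupp.mapDomain_single]

theorem push_zsmul (φ : G →* G) (n : ℤ) (c : C2 G) : push φ (n • c) = n • push φ c :=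
  Finsupp.mapDomain_smul n c

theorem push_comp (φ ψ : G →* G) (c : C2 G) : push (φ.comp ψ) c = push φ (push ψ c) := by
  rw [push, push, push, ← Finsupp.mapDomain_comp]
  rfl

theorem bd_push3 (φ : G →* G) (b : C3 G) : bd G (push3 φ b) = push φ (bd G b) := by
  induction b using Finsupp.induction_linear with
  | zero => simp [push3, push]
  | add b c hb hc =>
    have : push3 φ (b + c) = push3 φ b + push3 φ c := Finsupp.mapDomain_add
    rw [this, map_add, map_add, hb, hc, push_add]
  | single x z =>
    obtain ⟨a, b, c⟩ := x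
    have h1 : Finsupp.single (a, b, c) z = z • e3 a b c := by simp [e3]
    have h2 : push3 φ (z • e3 a b c) = z • e3 (φ a) (φ b) (φ c) := by
      simp [push3, e3, Finsupp.mapDomain_single]
    rw [h1, h2, map_zsmul, map_zsmul, bd_e3, bd_e3, push_zsmul, push_sub, push_add, push_sub,
      push_e2, push_e2, push_e2, push_e2, map_mul, map_mul]

theorem Fil.push {r : ℝ} {c : C2 G} (h : Fil r c) (φ : G →* G) : Fil r (push φ c) := by
  obtain ⟨b, h1, h2⟩ := h
  refine ⟨push3 φ b, by rw [bd_push3, h1], ?_⟩
  have := nrm_mapDomain_le (fun x : G × G × G => (φ x.1, φ x.2.1, φ x.2.2)) b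
  have h3 : (nrm (push3 φ b) : ℝ) ≤ nrm b := by exact_mod_cast this
  linarith

theorem slab_map (φ : G →* G) (g : A → G) (z : A × Bool) :
    slab (fun a => φ (g a)) z = φ (slab g z) := by
  rcases z with ⟨a, s⟩
  cases s <;> simp [slab]

theorem wpr_map (φ : G →* G) (g : A → G) (W : List (A × Bool)) :
    wpr (fun a => φ (g a)) W = φ (wpr g W) := by
  induction W with
  | nil => simp
  | cons z W ih => rw [wpr_cons, wpr_cons, map_mul, ih, slab_map]

theorem push_kap (φ : G →* G) (g : A → G) (z : A × Bool) :
    push φ (kap g z) = kap (fun a => φ (g a)) z := by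
  rcases z with ⟨a, s⟩
  cases s
  · simp [kap, push_add, push_neg, push_e2]
  · simp [kap, push_zero]

theorem push_fan (φ : G →* G) (g : A → G) (W : List (A × Bool)) : ∀ p : G,
    push φ (fan g p W) = fan (fun a => φ (g a)) (φ p) W := by
  induction W with
  | nil => intro p; simp [push_zero]
  | cons z W ih =>
    intro p
    rw [fan_cons, fan_cons, push_add, push_add, push_e2, push_kap, ih, slab_map, map_mul]

/-- the prism over an edge -/
noncomputable def pr (c : V → G) (v w : V) (a : G) : C2 G :=
  e2 (c v) ((c v)⁻¹ * a * c w) - e2 a (c w)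

theorem fil_prism (c : V → G) (v0 v1 v2 : V) (a b : G) :
    Fil 3 (e2 ((c v0)⁻¹ * a * c v1) ((c v1)⁻¹ * b * c v2) - e2 a b
      + pr c v0 v2 (a * b) - pr c v0 v1 a - pr c v1 v2 b) := by
  have h1 := fil_e3 (c v0) ((c v0)⁻¹ * a * c v1) ((c v1)⁻¹ * b * c v2)
  have h2 := (fil_e3 a (c v1) ((c v1)⁻¹ * b * c v2)).neg
  have h3 := fil_e3 a b (c v2)
  refine ((h1.add h2).add h3).of_eq (by norm_num) ?_
  have e1 : c v0 * ((c v0)⁻¹ * a * c v1) = a * c v1 := by group
  have e2' : (c v0)⁻¹ * a * c v1 * ((c v1)⁻¹ * b * c v2) = (c v0)⁻¹ * (a * b) * c v2 := by group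
  have e3' : c v1 * ((c v1)⁻¹ * b * c v2) = b * c v2 := by group
  rw [e1, e2', e3', pr, pr, pr]
  abel

theorem fil_pr_one (c : V → G) (v : V) : Fil 2 (pr c v v 1) := by
  have h1 := fil_one_right (c v)
  have h2 := (fil_one_left (c v)).neg
  refine (h1.add h2).of_eq (by norm_num) ?_
  have e1 : (c v)⁻¹ * 1 * c v = 1 := by group
  rw [pr, e1]
  abel

/-- the signed sum of the edge prisms of a word -/
noncomputable def esum (c : V → G) (d : Dat A V G) : List (A × Bool) → C2 G
  | [] => 0
  | z :: W => (if z.2 then pr c (d.src z.1) (d.tgt z.1) (d.lab z.1)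
      else - pr c (d.src z.1) (d.tgt z.1) (d.lab z.1)) + esum c d W

/-- gauge transformed labels -/
def gau (c : V → G) (d : Dat A V G) (a : A) : G := (c (d.src a))⁻¹ * d.lab a * c (d.tgt a)

theorem slab_gau (c : V → G) (d : Dat A V G) (z : A × Bool) :
    slab (gau c d) z = (c (ssrc d z))⁻¹ * slab d.lab z * c (stgt d z) := by
  rcases z with ⟨a, s⟩
  cases s
  · simp only [slab, gau, ssrc, stgt, Bool.false_eq_true, if_false]
    group
  · simp only [slab, gau, ssrc, stgt, if_true]

/-- the cost of a gauge transformation of one letter -/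
theorem fil_gau_letter (c : V → G) (d : Dat A V G) (z : A × Bool) :
    Fil 5 (kap (gau c d) z - kap d.lab z + pr c (ssrc d z) (stgt d z) (slab d.lab z)
      - (if z.2 then pr c (d.src z.1) (d.tgt z.1) (d.lab z.1)
      else - pr c (d.src z.1) (d.tgt z.1) (d.lab z.1))) := by
  rcases z with ⟨a, s⟩
  cases s
  · simp only [kap, slab, ssrc, stgt, Bool.false_eq_true, if_false]
    have h1 := (fil_prism c (d.src a) (d.tgt a) (d.src a) (d.lab a) (d.lab a)⁻¹).neg
    have h2 := fil_pr_one c (d.src a)
    refine (h1.add h2).of_eq (by norm_num) ?_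
    have e1 : (c (d.tgt a))⁻¹ * (d.lab a)⁻¹ * c (d.src a)
      = ((c (d.src a))⁻¹ * d.lab a * c (d.tgt a))⁻¹ := by group
    rw [e1, mul_inv_cancel, gau]
    abel
  · simp only [kap, slab, ssrc, stgt, if_true]
    refine (Fil.zero' (by norm_num)).of_eq (le_refl _) ?_
    abel

theorem fil_gau_fan (c : V → G) (d : Dat A V G) (v0 : V) (W : List (A × Bool)) :
    ∀ (v w : V) (p : G), comp d v W w →
    Fil (8 * (W.length : ℝ)) (fan (gau c d) ((c v0)⁻¹ * p * c v) W - fan d.lab p W
      + pr c v0 w (p * wpr d.lab W) - pr c v0 v p - esum c d W) := by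
  induction W with
  | nil =>
    intro v w p h
    simp only [comp] at h
    subst h
    refine Fil.zero.of_eq (by simp) ?_
    simp [esum]
  | cons z W ih =>
    intro v w p h
    simp only [comp] at h
    obtain ⟨rfl, h⟩ := h
    have h1 := ih (stgt d z) w (p * slab d.lab z) h
    have h2 := fil_prism c v0 (ssrc d z) (stgt d z) p (slab d.lab z)
    have h3 := fil_gau_letter c d z
    refine ((h1.add h2).add h3).of_eq (by push_cast [List.length_cons]; linarith) ?_
    have e1 : (c v0)⁻¹ * p * c (ssrc d z) * ((c (ssrc d z))⁻¹ * slab d.lab z * c (stgt d z))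
      = (c v0)⁻¹ * (p * slab d.lab z) * c (stgt d z) := by group
    rw [fan_cons, fan_cons, slab_gau, wpr_cons, e1, mul_assoc p, esum]
    abel

variable [DecidableEq A] [Fintype A]

theorem esum_eq (c : V → G) (d : Dat A V G) (W : List (A × Bool)) :
    esum c d W = ∑ a, ((occ (a, true) W : ℤ) - occ (a, false) W) •
      pr c (d.src a) (d.tgt a) (d.lab a) := by
  induction W with
  | nil => simp [esum]
  | cons z W ih =>
    rw [esum, ih]
    simp only [occ_cons]
    have h1 : (if z.2 then pr c (d.src z.1) (d.tgt z.1) (d.lab z.1)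
      else - pr c (d.src z.1) (d.tgt z.1) (d.lab z.1))
      = ∑ a, (((if z = (a, true) then 1 else 0 : ℤ)) - (if z = (a, false) then 1 else 0 : ℤ)) •
      pr c (d.src a) (d.tgt a) (d.lab a) := by
      rw [Finset.sum_eq_single z.1]
      · rcases z with ⟨a, s⟩
        cases s <;> simp
      · intro b _ hb
        have h1 : z ≠ (b, true) := fun e => hb (by rw [e])
        have h2 : z ≠ (b, false) := fun e => hb (by rw [e])
        simp [h1, h2]
      · intro h
        exact absurd (Finset.mem_univ _) h
    rw [h1, ← Finset.sum_add_distrib]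
    refine Finset.sum_congr rfl fun a _ => ?_
    rw [← add_smul]
    congr 1
    push_cast
    ring

/-- a gauge transformation changes the cycle by a boundary of norm at most `16 n` -/
theorem fil_gauge {d d' : Dat A V G} (hd : Good d) (c : V → G) (hrow : d'.row = d.row)
    (hlab : ∀ a, d'.lab a = gau c d a) :
    Fil (16 * (Fintype.card A : ℝ)) (cyc d' - cyc d) := by
  obtain ⟨v, w, h1, h2⟩ := hd.cmp
  have f1 := fil_gau_fan c d v (d.row true) v w 1 h1
  have f2 := fil_gau_fan c d v (d.row false) v w 1 h2
  have he : (c v)⁻¹ * 1 * c v = 1 := by group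
  have hes : esum c d (d.row true) = esum c d (d.row false) := by
    rw [esum_eq, esum_eq]
    refine Finset.sum_congr rfl fun a _ => ?_
    have := hd.sgn (a, true)
    rw [show sinv (a, true) = (a, false) from rfl] at this
    rw [this]
  have hlen := length_sum hd
  have hlen' : ((d.row true).length : ℝ) + (d.row false).length = 2 * Fintype.card A := by
    exact_mod_cast hlen
  have hl : d'.lab = gau c d := funext hlab
  refine (f1.sub f2).of_eq (by linarith) ?_
  rw [he, hd.rel, hes, cyc, cyc, hrow, hl]
  abel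

end Pool.Agent.Lib.FVol
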