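import Pool.Agent.Lib.FVol.Words

/-!
The data of (generalised) Rauzy-Veech induction with labels in a group, one step of the induction,
its invariants and the cost of one step.
-/

set_option autoImplicit false

namespace Pool.Agent.Lib.FVol

/-- A two-row scheme of signed letters (`row true` the top row, `row false` the bottom row) with
lengths, end points and labels of the letters. -/
structure Dat (A V G : Type*) where
  row : Bool → List (A × Bool)
  lam : A → ℝ
  src : A → V
  tgt : A → V
  lab : A → G

variable {A V G : Type*}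

/-- initial vertex of a signed letter -/
def ssrc (d : Dat A V G) (x : A × Bool) : V := if x.2 then d.src x.1 else d.tgt x.1

/-- end vertex of a signed letter -/
def stgt (d : Dat A V G) (x : A × Bool) : V := if x.2 then d.tgt x.1 else d.src x.1

theorem ssrc_sinv (d : Dat A V G) (x : A × Bool) : ssrc d (sinv x) = stgt d x := by
  rcases x with ⟨a, s⟩
  cases s <;> rfl

theorem stgt_sinv (d : Dat A V G) (x : A × Bool) : stgt d (sinv x) = ssrc d x := by
  rcases x with ⟨a, s⟩
  cases s <;> rfl

/-- the word is a path from `v` to `w` -/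
def comp (d : Dat A V G) : V → List (A × Bool) → V → Prop
  | v, [], w => v = w
  | v, x :: W, w => ssrc d x = v ∧ comp d (stgt d x) W w

theorem comp_append (d : Dat A V G) (v w : V) (W W' : List (A × Bool)) :
    comp d v (W ++ W') w ↔ ∃ u, comp d v W u ∧ comp d u W' w := by
  induction W generalizing v with
  | nil => simp [comp]
  | cons x W ih =>
    rw [List.cons_append]
    simp only [comp, ih]
    constructor
    · rintro ⟨h, u, h1, h2⟩
      exact ⟨u, ⟨h, h1⟩, h2⟩
    · rintro ⟨u, ⟨h, h1⟩, h2⟩
      exact ⟨h, u, h1, h2⟩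

section step

variable [DecidableEq A] [Group G]

/-- One step of the induction: row `τ` is `T x`, the other row is `B y`, the letter `x` wins. The
new edge `x' = x y⁻¹` replaces `x`, so every other occurrence of `x` becomes `x' y`. -/
def step (d : Dat A V G) (τ : Bool) (x y : A × Bool) (T B : List (A × Bool)) : Dat A V G where
  row σ := if σ = τ then T.flatMap (sbs x y) ++ [x] else B.flatMap (sbs x y)
  lam := Function.update d.lam x.1 (d.lam x.1 - d.lam y.1)
  src := if x.2 then d.src else Function.update d.src x.1 (ssrc d y)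
  tgt := if x.2 then Function.update d.tgt x.1 (ssrc d y) else d.tgt
  lab := Function.update d.lab x.1
    (if x.2 then d.lab x.1 * (slab d.lab y)⁻¹ else slab d.lab y * d.lab x.1)

/-- The Rauzy-Veech step: the longer one of the two last letters wins. -/
inductive Rv : Dat A V G → Dat A V G → Prop
  | mk (d : Dat A V G) (τ : Bool) (x y : A × Bool) (T B : List (A × Bool))
      (h1 : d.row τ = T ++ [x]) (h2 : d.row (!τ) = B ++ [y]) (h3 : d.lam y.1 < d.lam x.1) :
      Rv d (step d τ x y T B)

/-- The scheme is the boundary of a polygon whose sides are identified to a closed oriented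
surface, with positive lengths and consistent labels. -/
structure Good (d : Dat A V G) : Prop where
  two : ∀ z, occ z (d.row true) + occ (sinv z) (d.row true) + occ z (d.row false)
    + occ (sinv z) (d.row false) = 2
  sgn : ∀ z, (occ z (d.row true) : ℤ) - occ (sinv z) (d.row true)
    = occ z (d.row false) - occ (sinv z) (d.row false)
  pos : ∀ a, 0 < d.lam a
  rel : wpr d.lab (d.row true) = wpr d.lab (d.row false)
  cmp : ∃ v w, comp d v (d.row true) w ∧ comp d v (d.row false) w

/-- the 2-cycle of the polygon -/
noncomputable def cyc (d : Dat A V G) : C2 G :=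
  fan d.lab 1 (d.row true) - fan d.lab 1 (d.row false)

theorem Good.two' {d : Dat A V G} (h : Good d) (τ : Bool) (z : A × Bool) :
    occ z (d.row τ) + occ (sinv z) (d.row τ) + occ z (d.row (!τ))
    + occ (sinv z) (d.row (!τ)) = 2 := by
  have := h.two z
  cases τ
  · simp only [Bool.not_false]; omega
  · simp only [Bool.not_true]; omega

theorem Good.sgn' {d : Dat A V G} (h : Good d) (τ : Bool) (z : A × Bool) :
    (occ z (d.row τ) : ℤ) - occ (sinv z) (d.row τ)
    = occ z (d.row (!τ)) - occ (sinv z) (d.row (!τ)) := by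
  have := h.sgn z
  cases τ
  · simp only [Bool.not_false]; omega
  · simp only [Bool.not_true]; omega

theorem Good.rel' {d : Dat A V G} (h : Good d) (τ : Bool) :
    wpr d.lab (d.row τ) = wpr d.lab (d.row (!τ)) := by
  cases τ
  · exact h.rel.symm
  · exact h.rel

theorem Good.cmp' {d : Dat A V G} (h : Good d) (τ : Bool) :
    ∃ v w, comp d v (d.row τ) w ∧ comp d v (d.row (!τ)) w := by
  obtain ⟨v, w, h1, h2⟩ := h.cmp
  cases τ
  · exact ⟨v, w, h2, h1⟩
  · exact ⟨v, w, h1, h2⟩

theorem good_of {d : Dat A V G} (τ : Bool)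
    (two : ∀ z, occ z (d.row τ) + occ (sinv z) (d.row τ) + occ z (d.row (!τ))
      + occ (sinv z) (d.row (!τ)) = 2)
    (sgn : ∀ z, (occ z (d.row τ) : ℤ) - occ (sinv z) (d.row τ)
      = occ z (d.row (!τ)) - occ (sinv z) (d.row (!τ)))
    (pos : ∀ a, 0 < d.lam a)
    (rel : wpr d.lab (d.row τ) = wpr d.lab (d.row (!τ)))
    (cmp : ∃ v w, comp d v (d.row τ) w ∧ comp d v (d.row (!τ)) w) : Good d := by
  cases τ
  · simp only [Bool.not_false] at *
    refine ⟨fun z => ?_, fun z => ?_, pos, rel.symm, ?_⟩
    · have := two z; omega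
    · have := sgn z; omega
    · obtain ⟨v, w, h1, h2⟩ := cmp
      exact ⟨v, w, h2, h1⟩
  · exact ⟨two, sgn, pos, rel, cmp⟩

/-- the cycle seen from row `τ` -/
noncomputable def cycr (τ : Bool) (d : Dat A V G) : C2 G :=
  fan d.lab 1 (d.row τ) - fan d.lab 1 (d.row (!τ))

theorem fil_cyc_of_cycr {τ : Bool} {d d' : Dat A V G} {r : ℝ}
    (h : Fil r (cycr τ d' - cycr τ d)) : Fil r (cyc d' - cyc d) := by
  cases τ
  · refine h.neg.of_eq (le_refl _) ?_
    simp only [cyc, cycr, Bool.not_false]
    abel
  · exact h

variable {d : Dat A V G} {τ : Bool} {x y : A × Bool} {T B : List (A × Bool)}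

theorem step_row_self : (step d τ x y T B).row τ = T.flatMap (sbs x y) ++ [x] := by
  simp [step]

theorem step_row_other : (step d τ x y T B).row (!τ) = B.flatMap (sbs x y) := by
  simp [step]

theorem step_lab_of_ne {a : A} (h : a ≠ x.1) : (step d τ x y T B).lab a = d.lab a := by
  simp [step, Function.update_of_ne h]

theorem step_lam_of_ne {a : A} (h : a ≠ x.1) : (step d τ x y T B).lam a = d.lam a := by
  simp [step, Function.update_of_ne h]

theorem step_lam_self : (step d τ x y T B).lam x.1 = d.lam x.1 - d.lam y.1 := by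
  simp [step]

theorem step_slab_self :
    slab (step d τ x y T B).lab x = slab d.lab x * (slab d.lab y)⁻¹ := by
  rcases x with ⟨a, s⟩
  cases s
  · simp only [slab, step, Function.update_self, Bool.false_eq_true, if_false, mul_inv_rev]
  · simp only [slab, step, Function.update_self, if_true]

theorem step_slab_mul :
    slab (step d τ x y T B).lab x * slab d.lab y = slab d.lab x := by
  rw [step_slab_self]; group

theorem step_ssrc_of_ne {z : A × Bool} (h : z.1 ≠ x.1) :
    ssrc (step d τ x y T B) z = ssrc d z := by
  rcases z with ⟨b, t⟩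
  rcases x with ⟨a, s⟩
  simp only at h
  cases s <;> cases t <;> simp [ssrc, step, Function.update_of_ne h]

theorem step_stgt_of_ne {z : A × Bool} (h : z.1 ≠ x.1) :
    stgt (step d τ x y T B) z = stgt d z := by
  rw [← ssrc_sinv, ← ssrc_sinv, step_ssrc_of_ne (by simpa using h)]

theorem step_ssrc_self : ssrc (step d τ x y T B) x = ssrc d x := by
  rcases x with ⟨a, s⟩
  cases s <;> simp [ssrc, step]

theorem step_stgt_self : stgt (step d τ x y T B) x = ssrc d y := by
  rcases x with ⟨a, s⟩
  cases s <;> simp [stgt, step]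

theorem step_row_self_append (hxy : y.1 ≠ x.1) (h1 : d.row τ = T ++ [x]) :
    (step d τ x y T B).row τ ++ [y] = (d.row τ).flatMap (sbs x y) := by
  rw [step_row_self, h1, List.flatMap_append, List.append_assoc]
  simp [sbs_self]

theorem step_row_other_append (hxy : y.1 ≠ x.1) (h2 : d.row (!τ) = B ++ [y]) :
    (step d τ x y T B).row (!τ) ++ [y] = (d.row (!τ)).flatMap (sbs x y) := by
  rw [step_row_other, h2, List.flatMap_append]
  simp [sbs_of_ne hxy]

theorem comp_sbs (hxy : y.1 ≠ x.1) (hend : stgt d x = stgt d y) (W : List (A × Bool)) :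
    ∀ v w, comp (step d τ x y T B) v (W.flatMap (sbs x y)) w ↔ comp d v W w := by
  induction W with
  | nil => intro v w; simp [comp]
  | cons z W ih =>
    intro v w
    by_cases hzx : z = x
    · subst hzx
      rw [List.flatMap_cons, sbs_self]
      simp only [List.cons_append, List.nil_append, comp, step_ssrc_self, step_stgt_self,
        step_ssrc_of_ne hxy, step_stgt_of_ne hxy, ih, hend, true_and]
    · by_cases hzx' : z = sinv x
      · subst hzx'
        have hxy' : (sinv y).1 ≠ x.1 := hxy
        rw [List.flatMap_cons, sbs_sinv]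
        simp only [List.cons_append, List.nil_append, comp, ssrc_sinv, stgt_sinv,
          step_ssrc_self, step_stgt_self, step_ssrc_of_ne hxy, step_stgt_of_ne hxy, ih, hend,
          true_and]
      · have hz1 : z.1 ≠ x.1 := by
          intro h
          rcases eq_or_sinv h with h | h
          · exact hzx h
          · exact hzx' h
        rw [List.flatMap_cons, sbs_of_ne hz1]
        simp only [List.cons_append, List.nil_append, comp, step_ssrc_of_ne hz1,
          step_stgt_of_ne hz1, ih]

theorem ends_eq (hd : Good d) (h1 : d.row τ = T ++ [x]) (h2 : d.row (!τ) = B ++ [y]) :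
    stgt d x = stgt d y := by
  obtain ⟨v, w, hv, hw⟩ := hd.cmp' τ
  rw [h1, comp_append] at hv
  rw [h2, comp_append] at hw
  obtain ⟨u, _, hu⟩ := hv
  obtain ⟨u', _, hu'⟩ := hw
  simp only [comp] at hu hu'
  rw [hu.2, hu'.2]

theorem Good.step (hd : Good d) (hxy : y.1 ≠ x.1) (h1 : d.row τ = T ++ [x])
    (h2 : d.row (!τ) = B ++ [y]) (hlam : d.lam y.1 < d.lam x.1) :
    Good (step d τ x y T B) := by
  have e1 := step_row_self_append (B := B) hxy h1
  have e2 := step_row_other_append (T := T) hxy h2
  have o1 : ∀ z, occ z ((FVol.step d τ x y T B).row τ) + (if y = z then 1 else 0)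
      = occ z (d.row τ) + (if z = y then occ x (d.row τ) else 0)
        + (if z = sinv y then occ (sinv x) (d.row τ) else 0) := by
    intro z
    rw [← occ_flatMap_sbs hxy, ← e1, occ_append, occ_cons, occ_nil, zero_add]
  have o2 : ∀ z, occ z ((FVol.step d τ x y T B).row (!τ)) + (if y = z then 1 else 0)
      = occ z (d.row (!τ)) + (if z = y then occ x (d.row (!τ)) else 0)
        + (if z = sinv y then occ (sinv x) (d.row (!τ)) else 0) := by
    intro z
    rw [← occ_flatMap_sbs hxy, ← e2, occ_append, occ_cons, occ_nil, zero_add]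
  have hy' : y ≠ sinv y := (sinv_ne y).symm
  have hgen : ∀ a, a ≠ x.1 → (FVol.step d τ x y T B).lab a = d.lab a :=
    fun a ha => step_lab_of_ne ha
  refine good_of τ ?_ ?_ ?_ ?_ ?_
  · intro z
    have a1 := o1 z
    have a2 := o1 (sinv z)
    have a3 := o2 z
    have a4 := o2 (sinv z)
    have b1 := hd.two' τ z
    have b2 := hd.two' τ x
    by_cases hz : z = y
    · subst hz
      simp only [if_true, hy', if_false, sinv_ne] at a1 a2 a3 a4
      omega
    · by_cases hz' : z = sinv y
      · subst hz'
        simp only [sinv_sinv, if_true, hy', if_false, sinv_ne] at a1 a2 a3 a4 b1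
        simp only [sinv_sinv]
        omega
      · have c1 : ¬ y = z := fun e => hz e.symm
        have c2 : ¬ y = sinv z := fun e => hz' (by rw [e, sinv_sinv])
        have c3 : ¬ sinv z = y := fun e => c2 e.symm
        have c4 : ¬ sinv z = sinv y := fun e => hz (by rw [← sinv_sinv z, e, sinv_sinv])
        simp only [hz, hz', c1, c2, c3, c4, if_false] at a1 a2 a3 a4
        omega
  · intro z
    have a1 := o1 z
    have a2 := o1 (sinv z)
    have a3 := o2 z
    have a4 := o2 (sinv z)
    have b1 := hd.sgn' τ z
    have b2 := hd.sgn' τ x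
    by_cases hz : z = y
    · subst hz
      simp only [if_true, hy', if_false, sinv_ne] at a1 a2 a3 a4
      omega
    · by_cases hz' : z = sinv y
      · subst hz'
        simp only [sinv_sinv, if_true, hy', if_false, sinv_ne] at a1 a2 a3 a4 b1
        simp only [sinv_sinv]
        omega
      · have c1 : ¬ y = z := fun e => hz e.symm
        have c2 : ¬ y = sinv z := fun e => hz' (by rw [e, sinv_sinv])
        have c3 : ¬ sinv z = y := fun e => c2 e.symm
        have c4 : ¬ sinv z = sinv y := fun e => hz (by rw [← sinv_sinv z, e, sinv_sinv])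
        simp only [hz, hz', c1, c2, c3, c4, if_false] at a1 a2 a3 a4
        omega
  · intro a
    by_cases ha : a = x.1
    · subst ha
      rw [step_lam_self]
      linarith
    · rw [step_lam_of_ne ha]
      exact hd.pos a
  · have w1 := wpr_sbs hxy hgen step_slab_mul (d.row τ)
    have w2 := wpr_sbs hxy hgen step_slab_mul (d.row (!τ))
    rw [← e1, wpr_append] at w1
    rw [← e2, wpr_append] at w2
    have := hd.rel' τ
    rw [← w1, ← w2] at this
    exact mul_right_cancel this
  · have hend := ends_eq hd h1 h2
    obtain ⟨v, w, hv, hw⟩ := hd.cmp' τ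
    rw [← comp_sbs (T := T) (B := B) (τ := τ) hxy hend, ← e1, comp_append] at hv
    rw [← comp_sbs (T := T) (B := B) (τ := τ) hxy hend, ← e2, comp_append] at hw
    obtain ⟨u, hu1, hu2⟩ := hv
    obtain ⟨u', hu1', hu2'⟩ := hw
    simp only [comp] at hu2 hu2'
    refine ⟨v, u, hu1, ?_⟩
    rw [← hu2.1, hu2'.1]
    exact hu1'

/-- one step costs at most 26 -/
theorem fil_step (hd : Good d) (hxy : y.1 ≠ x.1) (h1 : d.row τ = T ++ [x])
    (h2 : d.row (!τ) = B ++ [y]) :
    Fil 26 (cyc (step d τ x y T B) - cyc d) := by
  have e1 := step_row_self_append (B := B) hxy h1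
  have e2 := step_row_other_append (T := T) hxy h2
  have hgen : ∀ a, a ≠ x.1 → (step d τ x y T B).lab a = d.lab a :=
    fun a ha => step_lab_of_ne ha
  have w1 := wpr_sbs hxy hgen step_slab_mul (d.row τ)
  have w2 := wpr_sbs hxy hgen step_slab_mul (d.row (!τ))
  rw [← e1, wpr_append] at w1
  rw [← e2, wpr_append] at w2
  have hw : wpr (step d τ x y T B).lab ((step d τ x y T B).row τ)
      = wpr (step d τ x y T B).lab ((step d τ x y T B).row (!τ)) := by
    have := hd.rel' τ
    rw [← w1, ← w2] at this
    exact mul_right_cancel this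
  have f1 := fan_sbs hxy hgen (step_slab_mul (d := d) (τ := τ) (x := x) (y := y) (T := T) (B := B))
    (d.row τ) 1
  have f2 := fan_sbs hxy hgen (step_slab_mul (d := d) (τ := τ) (x := x) (y := y) (T := T) (B := B))
    (d.row (!τ)) 1
  rw [← e1, fan_append] at f1
  rw [← e2, fan_append] at f2
  apply fil_cyc_of_cycr (τ := τ)
  have htwo := hd.two' τ x
  have hsgn := hd.sgn' τ x
  refine (f1.sub f2).of_eq ?_ ?_
  · have : ((occ x (d.row τ) : ℝ) + occ (sinv x) (d.row τ) + occ x (d.row (!τ))
      + occ (sinv x) (d.row (!τ))) = 2 := by exact_mod_cast htwo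
    linarith
  · rw [hsgn, hw, cycr, cycr]
    abel

end step

end Pool.Agent.Lib.FVol
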