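import Mathlib

/-!
The potential: a change of the winner increases `(n+1) ∑ log₂ h + rank` by `1 + log₂ (1 + k)`.
-/

set_option autoImplicit false

namespace Pool.Agent.Lib.FVol

open Finset

/-- the potential of a height function with current winner `a` -/
noncomputable def Psi {A : Type*} [Fintype A] (h : A → ℝ) (a : A) : ℝ :=
  ((Fintype.card A : ℝ) + 1) * ∑ b, Real.logb 2 (h b) + ((univ.filter fun b => h a ≤ h b).card : ℝ)

theorem logb_two_nonneg {x : ℝ} (hx : 1 ≤ x) : 0 ≤ Real.logb 2 x :=
  Real.logb_nonneg (by norm_num) hx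

theorem sum_logb_mono {A : Type*} [Fintype A] {h h' : A → ℝ} (hpos : ∀ a, 0 < h a)
    (hmono : ∀ a, h a ≤ h' a) : ∑ b, Real.logb 2 (h b) ≤ ∑ b, Real.logb 2 (h' b) :=
  Finset.sum_le_sum fun b _ => Real.logb_le_logb_of_le (by norm_num) (hpos b) (hmono b)

theorem pot_step {A : Type*} [Fintype A] (h h' : A → ℝ) (hpos : ∀ a, 0 < h a)
    (hmono : ∀ a, h a ≤ h' a) (α γ : A) (hα : h' α = h α + h' γ) (k : ℕ)
    (hk : k * h α ≤ h' γ) :
    1 + Real.logb 2 (1 + k) ≤ Psi h' γ - Psi h α := by
  classical
  have hpos' : ∀ a, 0 < h' a := fun a => (hpos a).trans_le (hmono a)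
  have hα0 := hpos α
  -- the increase of the sum of logarithms
  have hsum : Real.logb 2 (h' α) - Real.logb 2 (h α)
      ≤ ∑ b, Real.logb 2 (h' b) - ∑ b, Real.logb 2 (h b) := by
    rw [← Finset.sum_sub_distrib]
    exact Finset.single_le_sum (f := fun b => Real.logb 2 (h' b) - Real.logb 2 (h b))
      (fun b _ => sub_nonneg.2
        (Real.logb_le_logb_of_le (by norm_num) (hpos b) (hmono b))) (mem_univ α)
  have hlog : Real.logb 2 (h' α) - Real.logb 2 (h α) = Real.logb 2 (1 + h' γ / h α) := by
    rw [← Real.logb_div (hpos' α).ne' hα0.ne', hα]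
    congr 1
    field_simp
  rw [hlog] at hsum
  set D := ∑ b, Real.logb 2 (h' b) - ∑ b, Real.logb 2 (h b) with hD
  have hn1 : (1 : ℝ) ≤ Fintype.card A := by
    have : 0 < Fintype.card A := Fintype.card_pos_iff.2 ⟨α⟩
    exact_mod_cast this
  have hPsi : Psi h' γ - Psi h α = ((Fintype.card A : ℝ) + 1) * D
      + (((univ.filter fun b => h' γ ≤ h' b).card : ℝ)
        - ((univ.filter fun b => h α ≤ h b).card : ℝ)) := by
    rw [Psi, Psi, hD]; ring
  rw [hPsi]
  rcases le_or_gt (h α) (h' γ) with hc | hc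
  · have hρ : 1 ≤ h' γ / h α := by rwa [le_div_iff₀ hα0, one_mul]
    have hρk : (k : ℝ) ≤ h' γ / h α := by rwa [le_div_iff₀ hα0]
    have hl1 : 1 ≤ Real.logb 2 (1 + h' γ / h α) := by
      have : Real.logb 2 2 ≤ Real.logb 2 (1 + h' γ / h α) :=
        Real.logb_le_logb_of_le (by norm_num) (by norm_num) (by linarith)
      rwa [Real.logb_self_eq_one (by norm_num)] at this
    have hl2 : Real.logb 2 (1 + k) ≤ Real.logb 2 (1 + h' γ / h α) :=
      Real.logb_le_logb_of_le (by norm_num) (by positivity) (by linarith)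
    have hc1 : (1 : ℝ) ≤ ((univ.filter fun b => h' γ ≤ h' b).card : ℝ) := by
      have : 0 < (univ.filter fun b => h' γ ≤ h' b).card :=
        Finset.card_pos.2 ⟨γ, by simp⟩
      exact_mod_cast this
    have hc2 : ((univ.filter fun b => h α ≤ h b).card : ℝ) ≤ Fintype.card A := by
      exact_mod_cast Finset.card_le_univ _
    nlinarith
  · have hk0 : k = 0 := by
      by_contra h0
      have : (1 : ℝ) ≤ k := by exact_mod_cast Nat.one_le_iff_ne_zero.2 h0
      nlinarith
    subst hk0
    have hDn : 0 ≤ D := by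
      refine le_trans (logb_two_nonneg ?_) hsum
      have : 0 < h' γ / h α := div_pos (hpos' γ) hα0
      linarith
    have hsub : insert γ (univ.filter fun b => h α ≤ h b) ⊆ univ.filter fun b => h' γ ≤ h' b := by
      intro b hb
      rcases mem_insert.1 hb with rfl | hb
      · simp
      · simp only [mem_filter, mem_univ, true_and] at hb ⊢
        linarith [hmono b]
    have hγ : γ ∉ univ.filter fun b => h α ≤ h b := by
      simp only [mem_filter, mem_univ, true_and, not_le]
      exact lt_of_le_of_lt (hmono γ) hc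
    have hcard := Finset.card_le_card hsub
    rw [card_insert_of_notMem hγ] at hcard
    have hcard' : ((univ.filter fun b => h α ≤ h b).card : ℝ) + 1
        ≤ ((univ.filter fun b => h' γ ≤ h' b).card : ℝ) := by exact_mod_cast hcard
    simp only [Nat.cast_zero, add_zero, Real.logb_one]
    nlinarith

end Pool.Agent.Lib.FVol
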