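import Pool.Agent.Lib.FVol.Types
import Pool.Agent.Lib.FVol.Pot

/-!
The cost of a path of the induction is linear in the sum of the logarithms of the heights.
-/

set_option autoImplicit false

namespace Pool.Agent.Lib.FVol

variable {A V G : Type*} [DecidableEq A] [Fintype A] [Group G]

/-- one step with heights, any winner -/
def Stp (s s' : Dat A V G × (A → ℝ)) : Prop := ∃ τ, Mv τ s s'

theorem Psi_nonneg {h : A → ℝ} (hh : ∀ a, 1 ≤ h a) (a : A) : 0 ≤ Psi h a := by
  have h1 : 0 ≤ ∑ b, Real.logb 2 (h b) := Finset.sum_nonneg fun b _ => logb_two_nonneg (hh b)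
  have h2 : (0 : ℝ) ≤ Fintype.card A := Nat.cast_nonneg _
  have h3 : (0 : ℝ) ≤ ((Finset.univ.filter fun b => h a ≤ h b).card : ℝ) := Nat.cast_nonneg _
  rw [Psi]
  positivity

theorem natLog_le (k : ℕ) : ((Nat.log 2 k : ℕ) : ℝ) ≤ Real.logb 2 (1 + k) := by
  rcases Nat.eq_zero_or_pos k with rfl | hk
  · simp
  · have h1 := Real.natLog_le_logb k 2
    have h2 : Real.logb 2 (k : ℝ) ≤ Real.logb 2 (1 + k) :=
      Real.logb_le_logb_of_le (by norm_num) (by exact_mod_cast hk) (by linarith)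
    push_cast at h1
    linarith

/-- bookkeeping along a path -/
def Inv (s0 s : Dat A V G × (A → ℝ)) : Prop :=
  s = s0 ∨ ∃ (τ : Bool) (L : ℕ) (rs r1 : Dat A V G × (A → ℝ)) (x : A × Bool)
    (T : List (A × Bool)), Good rs.1 ∧ (∀ a, 1 ≤ rs.2 a) ∧ rs.1.row τ = T ++ [x] ∧
      Mv τ rs r1 ∧ Run τ (L + 1) rs s ∧ (∀ a, r1.2 a ≤ s.2 a) ∧
      Fil ((56 * (Fintype.card A : ℝ) + 73) * Psi r1.2 x.1) (cyc rs.1 - cyc s0.1)

theorem inv_step {s0 s s'' : Dat A V G × (A → ℝ)} (hg : Good s0.1) (h0 : ∀ a, 1 ≤ s0.2 a)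
    (hI : Inv s0 s) (hst : Stp s s'') : Inv s0 s'' := by
  obtain ⟨τ', hm⟩ := hst
  have hn : (0 : ℝ) ≤ Fintype.card A := Nat.cast_nonneg _
  rcases hI with rfl | ⟨τ, L, rs, r1, x, T, hgr, hr1, hx, hmv, hrun, hle, hfil⟩
  · right
    obtain ⟨x, y, T, B, e1, e2, e3, e4, e5⟩ := id hm
    refine ⟨τ', 0, s, s'', x, T, hg, h0, e1, hm, Run.cons hm (Run.zero _), fun a => le_refl _, ?_⟩
    have h1 : ∀ a, 1 ≤ s''.2 a := fun a =>
      (h0 a).trans (hm.mono (fun b => zero_le_one.trans (h0 b)) a)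
    refine (Fil.zero' (mul_nonneg (by linarith) (Psi_nonneg h1 _))).of_eq (le_refl _) ?_
    simp
  · right
    have hr0 : ∀ a, 0 ≤ rs.2 a := fun a => zero_le_one.trans (hr1 a)
    have hs1 : ∀ a, 1 ≤ s.2 a := fun a => (hr1 a).trans (hrun.mono hr0 a)
    have hs0 : ∀ a, 0 ≤ s.2 a := fun a => zero_le_one.trans (hs1 a)
    rcases eq_or_ne τ' τ with rfl | hne
    · exact ⟨τ', L + 1, rs, r1, x, T, hgr, hr1, hx, hmv, hrun.snoc hm,
        fun a => (hle a).trans (hm.mono hs0 a), hfil⟩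
    · have hτ : τ' = !τ := by cases τ <;> cases τ' <;> simp_all
      subst hτ
      obtain ⟨x', y', T', B', e1, e2, e3, e4, e5⟩ := id hm
      rw [Bool.not_not] at e2
      obtain ⟨⟨T'', hx''⟩, hxs⟩ := hrun.winner hx
      obtain ⟨_, rfl⟩ := snoc_inj (e2.symm.trans hx'')
      have hgs := hrun.good hgr
      obtain ⟨k, c1, c2, _⟩ := run_cost hgr hr0 hx hrun
      have hk := c2 T' x' e1
      have hxr1 : r1.2 y'.1 = rs.2 y'.1 := (hmv.winner hx).2
      have hxx : y'.1 ≠ x'.1 := ne_of_lam e3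
      have hγ : s''.2 x'.1 = s.2 x'.1 := by rw [e5, Function.update_of_ne hxx.symm]
      have hα : s''.2 y'.1 = r1.2 y'.1 + s''.2 x'.1 := by
        rw [hγ, e5, Function.update_self, hxs, hxr1]
      have hr1pos : ∀ a, 0 < r1.2 a := fun a =>
        zero_lt_one.trans_le ((hr1 a).trans (hmv.mono hr0 a))
      have hmono : ∀ a, r1.2 a ≤ s''.2 a := fun a => (hle a).trans (hm.mono hs0 a)
      have hpot := pot_step r1.2 s''.2 hr1pos hmono y'.1 x'.1 hα k (by rw [hxr1, hγ]; exact hk)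
      refine ⟨!τ, 0, s, s'', x', T', hgs, hs1, e1, hm, Run.cons hm (Run.zero _),
        fun a => le_refl _, ?_⟩
      refine (c1.add hfil).of_eq ?_ (by abel)
      have hlog := natLog_le k
      have hl0 : 0 ≤ Real.logb 2 (1 + k) := logb_two_nonneg (by
        have : (0 : ℝ) ≤ k := Nat.cast_nonneg k
        linarith)
      have h5 : (56 * (Fintype.card A : ℝ) + 73) * (1 + Real.logb 2 (1 + k))
          ≤ (56 * (Fintype.card A : ℝ) + 73) * (Psi s''.2 x'.1 - Psi r1.2 y'.1) :=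
        mul_le_mul_of_nonneg_left hpot (by linarith)
      have h6 : 62 * Real.logb 2 (1 + (k : ℝ))
          ≤ (56 * (Fintype.card A : ℝ) + 73) * Real.logb 2 (1 + k) :=
        mul_le_mul_of_nonneg_right (by linarith) hl0
      nlinarith

theorem inv_of_path {s0 s : Dat A V G × (A → ℝ)} (hg : Good s0.1) (h0 : ∀ a, 1 ≤ s0.2 a)
    (h : Relation.ReflTransGen Stp s0 s) : Inv s0 s := by
  induction h with
  | refl => exact Or.inl rfl
  | tail _ hst ih => exact inv_step hg h0 ih hst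

theorem one_le_of_path {s0 s : Dat A V G × (A → ℝ)} (h0 : ∀ a, 1 ≤ s0.2 a)
    (h : Relation.ReflTransGen Stp s0 s) : ∀ a, 1 ≤ s.2 a := by
  induction h with
  | refl => exact h0
  | tail _ hst ih =>
    obtain ⟨τ, hm⟩ := hst
    exact fun a => (ih a).trans (hm.mono (fun b => zero_le_one.trans (ih b)) a)

theorem good_of_path {s0 s : Dat A V G × (A → ℝ)} (hg : Good s0.1)
    (h : Relation.ReflTransGen Stp s0 s) : Good s.1 := by
  induction h with
  | refl => exact hg
  | tail _ hst ih =>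
    obtain ⟨τ, hm⟩ := hst
    exact hm.good ih

/-- **the cost of a path** -/
theorem path_cost {s0 s : Dat A V G × (A → ℝ)} (hg : Good s0.1) (h0 : ∀ a, 1 ≤ s0.2 a)
    (h : Relation.ReflTransGen Stp s0 s) :
    Fil ((56 * (Fintype.card A : ℝ) + 73) * ((Fintype.card A : ℝ) + 2)
      * (∑ b, Real.logb 2 (s.2 b) + 1)) (cyc s.1 - cyc s0.1) := by
  have hn : (0 : ℝ) ≤ Fintype.card A := Nat.cast_nonneg _
  have hs1 := one_le_of_path h0 h
  have hS : 0 ≤ ∑ b, Real.logb 2 (s.2 b) := Finset.sum_nonneg fun b _ => logb_two_nonneg (hs1 b)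
  rcases inv_of_path hg h0 h with rfl | ⟨τ, L, rs, r1, x, T, hgr, hr1, hx, hmv, hrun, hle, hfil⟩
  · refine (Fil.zero' (by positivity)).of_eq (le_refl _) ?_
    simp
  · have hr0 : ∀ a, 0 ≤ rs.2 a := fun a => zero_le_one.trans (hr1 a)
    obtain ⟨k, c1, _, a, ha⟩ := run_cost hgr hr0 hx hrun
    refine (c1.add hfil).of_eq ?_ (by abel)
    have hr1pos : ∀ a, 0 < r1.2 a := fun a =>
      zero_lt_one.trans_le ((hr1 a).trans (hmv.mono hr0 a))
    have hlog := natLog_le k
    have hk : (k : ℝ) ≤ s.2 a := by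
      have h1 : (k : ℝ) * 1 ≤ k * rs.2 x.1 := mul_le_mul_of_nonneg_left (hr1 _) (Nat.cast_nonneg k)
      linarith
    have hl1 : Real.logb 2 (1 + k) ≤ 1 + Real.logb 2 (s.2 a) := by
      have h2 : Real.logb 2 (1 + k) ≤ Real.logb 2 (2 * s.2 a) :=
        Real.logb_le_logb_of_le (by norm_num) (by positivity) (by linarith [hs1 a])
      rwa [Real.logb_mul (by norm_num) (by linarith [hs1 a]), Real.logb_self_eq_one (by norm_num)]
        at h2
    have hl2 : Real.logb 2 (s.2 a) ≤ ∑ b, Real.logb 2 (s.2 b) :=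
      Finset.single_le_sum (f := fun b => Real.logb 2 (s.2 b))
        (fun b _ => logb_two_nonneg (hs1 b)) (Finset.mem_univ a)
    have hPsi : Psi r1.2 x.1 ≤ ((Fintype.card A : ℝ) + 1) * ∑ b, Real.logb 2 (s.2 b)
        + Fintype.card A := by
      rw [Psi]
      have h3 := sum_logb_mono hr1pos hle
      have h4 : ((Finset.univ.filter fun b => r1.2 x.1 ≤ r1.2 b).card : ℝ) ≤ Fintype.card A := by
        exact_mod_cast Finset.card_le_univ _
      have h5 : ((Fintype.card A : ℝ) + 1) * ∑ b, Real.logb 2 (r1.2 b)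
          ≤ ((Fintype.card A : ℝ) + 1) * ∑ b, Real.logb 2 (s.2 b) :=
        mul_le_mul_of_nonneg_left h3 (by linarith)
      linarith
    set S := ∑ b, Real.logb 2 (s.2 b)
    set n : ℝ := (Fintype.card A : ℝ)
    have h7 : (56 * n + 73) * Psi r1.2 x.1 ≤ (56 * n + 73) * ((n + 1) * S + n) :=
      mul_le_mul_of_nonneg_left hPsi (by linarith)
    have h8 : 56 * n + 73 + 62 * ((Nat.log 2 k : ℕ) : ℝ) ≤ (56 * n + 73) * (2 + S) := by
      have : 62 * ((Nat.log 2 k : ℕ) : ℝ) ≤ (56 * n + 73) * (1 + S) := by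
        have h9 : ((Nat.log 2 k : ℕ) : ℝ) ≤ 1 + S := by linarith
        calc 62 * ((Nat.log 2 k : ℕ) : ℝ) ≤ 62 * (1 + S) := by linarith
          _ ≤ (56 * n + 73) * (1 + S) := mul_le_mul_of_nonneg_right (by linarith) (by linarith)
      linarith
    calc _ ≤ (56 * n + 73) * (2 + S) + (56 * n + 73) * ((n + 1) * S + n) := by linarith
      _ = (56 * n + 73) * (n + 2) * (S + 1) := by ring

/-- the area is invariant -/
theorem area_step {s s' : Dat A V G × (A → ℝ)} (h : Stp s s') :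
    ∑ a, s'.2 a * s'.1.lam a = ∑ a, s.2 a * s.1.lam a := by
  obtain ⟨τ, x, y, T, B, e1, e2, e3, e4, e5⟩ := h
  have hxy := ne_of_lam e3
  have hx : s'.2 x.1 * s'.1.lam x.1 = s.2 x.1 * s.1.lam x.1 - s.2 x.1 * s.1.lam y.1 := by
    rw [e5, Function.update_of_ne hxy.symm, e4, step_lam_self]; ring
  have hy : s'.2 y.1 * s'.1.lam y.1 = s.2 y.1 * s.1.lam y.1 + s.2 x.1 * s.1.lam y.1 := by
    rw [e5, Function.update_self, e4, step_lam_of_ne hxy]; ring
  have hrest : ∀ a ∈ (Finset.univ.erase x.1).erase y.1,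
      s'.2 a * s'.1.lam a = s.2 a * s.1.lam a := by
    intro a ha
    rw [Finset.mem_erase, Finset.mem_erase] at ha
    rw [e5, Function.update_of_ne ha.1, e4, step_lam_of_ne ha.2.1]
  have hymem : y.1 ∈ Finset.univ.erase x.1 := Finset.mem_erase.2 ⟨hxy, Finset.mem_univ _⟩
  rw [← Finset.add_sum_erase Finset.univ _ (Finset.mem_univ x.1),
    ← Finset.add_sum_erase Finset.univ (fun a => s.2 a * s.1.lam a) (Finset.mem_univ x.1),
    ← Finset.add_sum_erase _ _ hymem,
    ← Finset.add_sum_erase _ (fun a => s.2 a * s.1.lam a) hymem,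
    Finset.sum_congr rfl hrest]
  simp only [hx, hy]
  ring

theorem area_path {s0 s : Dat A V G × (A → ℝ)} (h : Relation.ReflTransGen Stp s0 s) :
    ∑ a, s.2 a * s.1.lam a = ∑ a, s0.2 a * s0.1.lam a := by
  induction h with
  | refl => rfl
  | tail _ hst ih => rw [area_step hst, ih]

/-- heights are bounded by the initial total length over the final length -/
theorem height_le {d : Dat A V G} {s : Dat A V G × (A → ℝ)} (hg : Good d)
    (h : Relation.ReflTransGen Stp (d, fun _ => 1) s) (a : A) :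
    s.2 a ≤ (∑ b, d.lam b) / s.1.lam a := by
  have h1 := area_path h
  have hgs : Good s.1 := good_of_path (s0 := (d, fun _ => 1)) hg h
  have hs1 := one_le_of_path (s0 := (d, fun _ => 1)) (fun _ => le_refl _) h
  rw [le_div_iff₀ (hgs.pos a)]
  simp only [one_mul] at h1
  rw [← h1]
  exact Finset.single_le_sum (f := fun b => s.2 b * s.1.lam b)
    (fun b _ => mul_nonneg (zero_le_one.trans (hs1 b)) (hgs.pos b).le) (Finset.mem_univ a)

/-- a path without heights lifts to a path with heights -/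
theorem lift_path {d d' : Dat A V G} (h : Relation.ReflTransGen Rv d d') (h0 : A → ℝ) :
    ∃ h' : A → ℝ, Relation.ReflTransGen Stp (d, h0) (d', h') := by
  induction h with
  | refl => exact ⟨h0, Relation.ReflTransGen.refl⟩
  | tail _ hst ih =>
    obtain ⟨h', ih⟩ := ih
    cases hst with
    | mk τ x y T B h1 h2 h3 =>
      refine ⟨Function.update h' y.1 (h' y.1 + h' x.1), ih.tail ⟨τ, x, y, T, B, h1, h2, h3, rfl, rfl⟩⟩

end Pool.Agent.Lib.FVol
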