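import Pool.Agent.Lib.FVol.Moves

/-!
Runs of the induction with one winner: the partial twist, full cycles, and their cost.
-/

set_option autoImplicit false

namespace Pool.Agent.Lib.FVol

variable {A V G : Type*} [DecidableEq A] [Group G]

/-- one step with heights: row `τ` wins, the loser's height grows by the winner's height -/
def Mv (τ : Bool) (s s' : Dat A V G × (A → ℝ)) : Prop :=
  ∃ x y T B, s.1.row τ = T ++ [x] ∧ s.1.row (!τ) = B ++ [y] ∧ s.1.lam y.1 < s.1.lam x.1 ∧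
    s'.1 = step s.1 τ x y T B ∧ s'.2 = Function.update s.2 y.1 (s.2 y.1 + s.2 x.1)

theorem snoc_inj {α : Type*} {T T' : List α} {x x' : α} (h : T ++ [x] = T' ++ [x']) :
    T = T' ∧ x = x' := by
  have := List.append_inj' h rfl
  exact ⟨this.1, by simpa using this.2⟩

theorem Mv.of {τ : Bool} {s s' : Dat A V G × (A → ℝ)} (h : Mv τ s s') {x y : A × Bool}
    {T B : List (A × Bool)} (h1 : s.1.row τ = T ++ [x]) (h2 : s.1.row (!τ) = B ++ [y]) :
    s.1.lam y.1 < s.1.lam x.1 ∧ s'.1 = step s.1 τ x y T B ∧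
      s'.2 = Function.update s.2 y.1 (s.2 y.1 + s.2 x.1) := by
  obtain ⟨x', y', T', B', e1, e2, e3, e4, e5⟩ := h
  obtain ⟨rfl, rfl⟩ := snoc_inj (h1.symm.trans e1)
  obtain ⟨rfl, rfl⟩ := snoc_inj (h2.symm.trans e2)
  exact ⟨e3, e4, e5⟩

theorem ne_of_lam {d : Dat A V G} {x y : A × Bool} (h : d.lam y.1 < d.lam x.1) : y.1 ≠ x.1 := by
  intro e
  rw [e] at h
  exact lt_irrefl _ h

/-- `n` steps, all with winning row `τ` -/
inductive Run (τ : Bool) : ℕ → Dat A V G × (A → ℝ) → Dat A V G × (A → ℝ) → Prop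
  | zero (s : Dat A V G × (A → ℝ)) : Run τ 0 s s
  | cons {n : ℕ} {s s' s'' : Dat A V G × (A → ℝ)} (h : Mv τ s s') (h' : Run τ n s' s'') :
      Run τ (n + 1) s s''

theorem Run.snoc {τ : Bool} {n : ℕ} {s s' s'' : Dat A V G × (A → ℝ)} (h : Run τ n s s')
    (h' : Mv τ s' s'') : Run τ (n + 1) s s'' := by
  induction h with
  | zero s => exact Run.cons h' (Run.zero _)
  | cons h _ ih => exact Run.cons h (ih h')

theorem Run.split {τ : Bool} (a : ℕ) : ∀ (b : ℕ) (s s'' : Dat A V G × (A → ℝ)),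
    Run τ (a + b) s s'' → ∃ s', Run τ a s s' ∧ Run τ b s' s'' := by
  induction a with
  | zero =>
    intro b s s'' h
    rw [Nat.zero_add] at h
    exact ⟨s, Run.zero s, h⟩
  | succ a ih =>
    intro b s s'' h
    rw [Nat.succ_add] at h
    cases h with
    | cons h1 h2 =>
      obtain ⟨s', h3, h4⟩ := ih b _ _ h2
      exact ⟨s', Run.cons h1 h3, h4⟩

theorem Mv.good {τ : Bool} {s s' : Dat A V G × (A → ℝ)} (h : Mv τ s s') (hs : Good s.1) :
    Good s'.1 := by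
  obtain ⟨x, y, T, B, e1, e2, e3, e4, e5⟩ := h
  rw [e4]
  exact hs.step (ne_of_lam e3) e1 e2 e3

theorem Mv.fil {τ : Bool} {s s' : Dat A V G × (A → ℝ)} (h : Mv τ s s') (hs : Good s.1) :
    Fil 26 (cyc s'.1 - cyc s.1) := by
  obtain ⟨x, y, T, B, e1, e2, e3, e4, e5⟩ := h
  rw [e4]
  exact fil_step hs (ne_of_lam e3) e1 e2

theorem Mv.mono {τ : Bool} {s s' : Dat A V G × (A → ℝ)} (h : Mv τ s s')
    (hs : ∀ a, 0 ≤ s.2 a) (a : A) : s.2 a ≤ s'.2 a := by
  obtain ⟨x, y, T, B, e1, e2, e3, e4, e5⟩ := h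
  rw [e5]
  by_cases ha : a = y.1
  · subst ha
    rw [Function.update_self]
    linarith [hs x.1]
  · rw [Function.update_of_ne ha]

theorem Mv.winner {τ : Bool} {s s' : Dat A V G × (A → ℝ)} (h : Mv τ s s') {x : A × Bool}
    {T : List (A × Bool)} (h1 : s.1.row τ = T ++ [x]) :
    (∃ T', s'.1.row τ = T' ++ [x]) ∧ s'.2 x.1 = s.2 x.1 := by
  obtain ⟨x', y, T', B, e1, e2, e3, e4, e5⟩ := h
  obtain ⟨rfl, rfl⟩ := snoc_inj (h1.symm.trans e1)
  refine ⟨⟨_, by rw [e4, step_row_self]⟩, ?_⟩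
  rw [e5, Function.update_of_ne (ne_of_lam e3).symm]

theorem Run.good {τ : Bool} {n : ℕ} {s s' : Dat A V G × (A → ℝ)} (h : Run τ n s s')
    (hs : Good s.1) : Good s'.1 := by
  induction h with
  | zero s => exact hs
  | cons h _ ih => exact ih (h.good hs)

theorem Run.fil {τ : Bool} {n : ℕ} {s s' : Dat A V G × (A → ℝ)} (h : Run τ n s s')
    (hs : Good s.1) : Fil (26 * (n : ℝ)) (cyc s'.1 - cyc s.1) := by
  induction h with
  | zero s =>
    refine Fil.zero.of_eq (by simp) ?_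
    simp
  | cons h _ ih =>
    have h1 := ih (h.good hs)
    have h2 := h.fil hs
    refine (h1.add h2).of_eq (by push_cast; linarith) ?_
    abel

theorem Run.mono {τ : Bool} {n : ℕ} {s s' : Dat A V G × (A → ℝ)} (h : Run τ n s s')
    (hs : ∀ a, 0 ≤ s.2 a) (a : A) : s.2 a ≤ s'.2 a := by
  induction h with
  | zero s => exact le_refl _
  | cons h _ ih =>
    exact (h.mono hs a).trans (ih fun b => (hs b).trans (h.mono hs b))

theorem Run.winner {τ : Bool} {n : ℕ} {s s' : Dat A V G × (A → ℝ)} (h : Run τ n s s')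
    {x : A × Bool} : ∀ {T : List (A × Bool)}, s.1.row τ = T ++ [x] →
    (∃ T', s'.1.row τ = T' ++ [x]) ∧ s'.2 x.1 = s.2 x.1 := by
  induction h with
  | zero s => intro T h1; exact ⟨⟨T, h1⟩, rfl⟩
  | cons h _ ih =>
    intro T h1
    obtain ⟨⟨T', h2⟩, h3⟩ := h.winner h1
    obtain ⟨h4, h5⟩ := ih h2
    exact ⟨h4, h5.trans h3⟩

/-- part of a cycle -/
theorem run_partial {τ : Bool} (x : A × Bool) (T B1 : List (A × Bool))
    (hT : ∀ z ∈ T, z.1 ≠ x.1) (hB : ∀ z ∈ B1, z.1 ≠ x.1) (C2 : List (A × Bool)) :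
    ∀ (C1 : List (A × Bool)) (s s' : Dat A V G × (A → ℝ)),
    s.1.row τ = T ++ [x] → s.1.row (!τ) = B1 ++ x :: (C1 ++ C2) →
    (∀ z ∈ C1, z.1 ≠ x.1) → (∀ z ∈ C2, z.1 ≠ x.1) → (∀ a, 0 ≤ s.2 a) →
    Run τ C2.length s s' →
    s'.1.row τ = T ++ [x] ∧ s'.1.row (!τ) = B1 ++ x :: (C2 ++ C1) ∧
      (∀ a, a ≠ x.1 → s'.1.lab a = s.1.lab a) ∧
      slab s'.1.lab x = slab s.1.lab x * (wpr s.1.lab C2)⁻¹ ∧
      (∀ z ∈ C2, s.2 z.1 + s.2 x.1 ≤ s'.2 z.1) := by
  induction C2 using List.reverseRecOn with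
  | nil =>
    intro C1 s s' h1 h2 _ _ _ hr
    cases hr
    refine ⟨h1, by simpa using h2, fun a _ => rfl, by simp, by simp⟩
  | append_singleton C2 y ih =>
    intro C1 s s'' h1 h2 hC1 hC2 hs hr
    rw [List.length_append, List.length_singleton] at hr
    obtain ⟨s', hm, hr'⟩ : ∃ s', Mv τ s s' ∧ Run τ C2.length s' s'' := by
      cases hr with
      | cons h h' => exact ⟨_, h, h'⟩
    have hy : y.1 ≠ x.1 := hC2 y (by simp)
    have hC2' : ∀ z ∈ C2, z.1 ≠ x.1 := fun z hz => hC2 z (by simp [hz])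
    have h2' : s.1.row (!τ) = (B1 ++ x :: (C1 ++ C2)) ++ [y] := by
      rw [h2]; simp
    obtain ⟨e3, e4, e5⟩ := hm.of h1 h2'
    have r1 : s'.1.row τ = T ++ [x] := by
      rw [e4, step_row_self, flatMap_sbs_of_notMem hT]
    have r2 : s'.1.row (!τ) = B1 ++ x :: ((y :: C1) ++ C2) := by
      rw [e4, step_row_other, List.flatMap_append, List.flatMap_cons, List.flatMap_append,
        flatMap_sbs_of_notMem hB, flatMap_sbs_of_notMem hC1, flatMap_sbs_of_notMem hC2', sbs_self]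
      simp
    have hC1' : ∀ z ∈ y :: C1, z.1 ≠ x.1 := by
      intro z hz
      rcases List.mem_cons.1 hz with rfl | hz
      · exact hy
      · exact hC1 z hz
    have hs' : ∀ a, 0 ≤ s'.2 a := fun a => (hs a).trans (hm.mono hs a)
    obtain ⟨f1, f2, f3, f4, f5⟩ := ih (y :: C1) s' s'' r1 r2 hC1' hC2' hs' hr'
    have g1 : ∀ a, a ≠ x.1 → s'.1.lab a = s.1.lab a := by
      intro a ha
      rw [e4, step_lab_of_ne ha]
    refine ⟨f1, by rw [f2]; simp, ?_, ?_, ?_⟩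
    · intro a ha
      rw [f3 a ha, g1 a ha]
    · rw [f4, e4, step_slab_self, wpr_append, mul_assoc, ← e4,
        wpr_congr (fun z hz => g1 _ (hC2' z hz))]
      simp
    · intro z hz
      have hx : s'.2 x.1 = s.2 x.1 := (hm.winner h1).2
      rcases List.mem_append.1 hz with hz | hz
      · have := f5 z hz
        have h6 := hm.mono hs z.1
        linarith
      · have hzy : z = y := by simpa using hz
        subst hzy
        have h6 := hr'.mono hs' z.1
        have h7 : s'.2 z.1 = s.2 z.1 + s.2 x.1 := by rw [e5, Function.update_self]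
        linarith

/-- full cycles -/
theorem run_cycles {τ : Bool} (x : A × Bool) (T B1 C : List (A × Bool))
    (hT : ∀ z ∈ T, z.1 ≠ x.1) (hB : ∀ z ∈ B1, z.1 ≠ x.1) (hC : ∀ z ∈ C, z.1 ≠ x.1) (k : ℕ) :
    ∀ (s s' : Dat A V G × (A → ℝ)),
    s.1.row τ = T ++ [x] → s.1.row (!τ) = B1 ++ x :: C → (∀ a, 0 ≤ s.2 a) →
    Run τ (k * C.length) s s' →
    s'.1.row τ = T ++ [x] ∧ s'.1.row (!τ) = B1 ++ x :: C ∧
      (∀ a, a ≠ x.1 → s'.1.lab a = s.1.lab a) ∧
      slab s'.1.lab x = slab s.1.lab x * ((wpr s.1.lab C) ^ k)⁻¹ ∧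
      (∀ z ∈ C, s.2 z.1 + k * s.2 x.1 ≤ s'.2 z.1) := by
  induction k with
  | zero =>
    intro s s' h1 h2 _ hr
    rw [Nat.zero_mul] at hr
    cases hr
    exact ⟨h1, h2, fun a _ => rfl, by simp, by simp⟩
  | succ k ih =>
    intro s s'' h1 h2 hs hr
    rw [Nat.succ_mul] at hr
    obtain ⟨s', hr1, hr2⟩ := Run.split _ _ _ _ hr
    obtain ⟨f1, f2, f3, f4, f5⟩ := ih s s' h1 h2 hs hr1
    have hs' : ∀ a, 0 ≤ s'.2 a := fun a => (hs a).trans (hr1.mono hs a)
    obtain ⟨g1, g2, g3, g4, g5⟩ := run_partial x T B1 hT hB C [] s' s'' f1 (by simpa using f2)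
      (by simp) hC hs' hr2
    refine ⟨g1, by simpa using g2, ?_, ?_, ?_⟩
    · intro a ha
      rw [g3 a ha, f3 a ha]
    · rw [g4, f4, wpr_congr (fun z hz => f3 _ (hC z hz)), mul_assoc, ← mul_inv_rev, ← pow_succ']
    · intro z hz
      have a1 := f5 z hz
      have a2 := g5 z hz
      have a3 : s'.2 x.1 = s.2 x.1 := (hr1.winner h1).2
      rw [a3] at a2
      push_cast
      linarith

/-- cost of a twist of one label -/
theorem fil_twist {τ : Bool} {d d' : Dat A V G} (hd : Good d) {x : A × Bool}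
    {T B1 C : List (A × Bool)} (hT : ∀ z ∈ T, z.1 ≠ x.1) (hB : ∀ z ∈ B1, z.1 ≠ x.1)
    (hC : ∀ z ∈ C, z.1 ≠ x.1) (h1 : d.row τ = T ++ [x]) (h2 : d.row (!τ) = B1 ++ x :: C)
    (h1' : d'.row τ = T ++ [x]) (h2' : d'.row (!τ) = B1 ++ x :: C)
    (hl : ∀ a, a ≠ x.1 → d'.lab a = d.lab a) {v : G} (hv : slab d'.lab x = slab d.lab x * v)
    (hcomm : wpr d.lab C * v = v * wpr d.lab C) {r : ℝ} (hr : Fil r (tt (wpr d.lab C) v)) :
    Fil (2 * (C.length : ℝ) + 6 + r) (cyc d' - cyc d) := by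
  apply fil_cyc_of_cycr (τ := τ)
  have hrel := hd.rel' τ
  rw [h1, h2, wpr_append, wpr_append, wpr_cons, wpr_cons, wpr_nil, mul_one, ← mul_assoc] at hrel
  have hcore := fil_twist_core (wpr d.lab T) (wpr d.lab B1) (slab d.lab x) (wpr d.lab C) v hrel hcomm
  have s1 := fan_shift_one d.lab (wpr d.lab B1 * slab d.lab x) C
  have s2 := (fan_shift_one d.lab (wpr d.lab B1 * slab d.lab x * v) C).neg
  have cT : ∀ p, fan d'.lab p T = fan d.lab p T := fun p => fan_congr (fun z hz => hl _ (hT z hz)) p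
  have cB : ∀ p, fan d'.lab p B1 = fan d.lab p B1 :=
    fun p => fan_congr (fun z hz => hl _ (hB z hz)) p
  have cC : ∀ p, fan d'.lab p C = fan d.lab p C := fun p => fan_congr (fun z hz => hl _ (hC z hz)) p
  have wT : wpr d'.lab T = wpr d.lab T := wpr_congr (fun z hz => hl _ (hT z hz))
  have wB : wpr d'.lab B1 = wpr d.lab B1 := wpr_congr (fun z hz => hl _ (hB z hz))
  refine (((hcore.add hr).add s1).add s2).of_eq (by linarith) ?_
  rw [cycr, cycr, h1, h2, h1', h2', fan_append, fan_append, fan_append, fan_append]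
  simp only [fan_cons, fan_nil, one_mul, cT, cB, cC, wT, wB, hv, ← mul_assoc]
  abel

end Pool.Agent.Lib.FVol
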