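import Pool.Agent.Lib.FVol.Gauge
import Pool.Agent.Lib.FVol.Path

/-!
Equivariance of the induction under scaling, homomorphisms and gauge transformations; iteration of
a periodic path; the filling norm of `φ^k z - z`.
-/

set_option autoImplicit false

namespace Pool.Agent.Lib.FVol

variable {A V G : Type*} [DecidableEq A] [Group G]

/-- the image of the data under a map with stretch factor `μ` acting by `φ`; `c` records the
change of the base paths of the vertices -/
noncomputable def tw (φ : G →* G) (c : V → G) (μ : ℝ) (d : Dat A V G) : Dat A V G where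
  row := d.row
  lam a := d.lam a / μ
  src := d.src
  tgt := d.tgt
  lab a := (c (d.src a))⁻¹ * φ (d.lab a) * c (d.tgt a)

variable {φ : G →* G} {c : V → G} {μ : ℝ}

omit [DecidableEq A] in
theorem tw_slab (d : Dat A V G) (z : A × Bool) :
    slab (tw φ c μ d).lab z = (c (ssrc d z))⁻¹ * φ (slab d.lab z) * c (stgt d z) := by
  rcases z with ⟨a, s⟩
  cases s
  · simp only [slab, tw, ssrc, stgt, Bool.false_eq_true, if_false, map_inv]
    group
  · simp only [slab, tw, ssrc, stgt, if_true]

theorem tw_step {d : Dat A V G} {τ : Bool} {x y : A × Bool} {T B : List (A × Bool)}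
    (hxy : y.1 ≠ x.1) (hend : stgt d x = stgt d y) :
    step (tw φ c μ d) τ x y T B = tw φ c μ (step d τ x y T B) := by
  have hs : ssrc (tw φ c μ d) y = ssrc d y := rfl
  have hlam : (step (tw φ c μ d) τ x y T B).lam = (tw φ c μ (step d τ x y T B)).lam := by
    funext a
    by_cases ha : a = x.1
    · subst ha
      simp only [step, tw, Function.update_self]
      ring
    · simp only [step, tw, Function.update_of_ne ha]
  have hlab : (step (tw φ c μ d) τ x y T B).lab = (tw φ c μ (step d τ x y T B)).lab := by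
    funext a
    by_cases ha : a = x.1
    · subst ha
      rcases x with ⟨a, s⟩
      cases s
      · simp only [stgt, Bool.false_eq_true, if_false] at hend
        simp only [step, tw_slab, Bool.false_eq_true, if_false, Function.update_self]
        simp only [tw, Function.update_self, map_mul, hend]
        simp only [stgt]
        group
      · simp only [stgt, if_true] at hend
        simp only [step, tw_slab, if_true, Function.update_self]
        simp only [tw, Function.update_self, map_mul, map_inv, hend]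
        simp only [stgt]
        group
    · have h1 : (step d τ x y T B).src a = d.src a := by
        rcases x with ⟨b, s⟩
        cases s <;> simp [step, Function.update_of_ne ha]
      have h2 : (step d τ x y T B).tgt a = d.tgt a := by
        rcases x with ⟨b, s⟩
        cases s <;> simp [step, Function.update_of_ne ha]
      rw [step_lab_of_ne ha]
      simp only [tw, h1, h2, step_lab_of_ne ha]
  have hrow : (step (tw φ c μ d) τ x y T B).row = (tw φ c μ (step d τ x y T B)).row := rfl
  have hsrc : (step (tw φ c μ d) τ x y T B).src = (tw φ c μ (step d τ x y T B)).src := rfl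
  have htgt : (step (tw φ c μ d) τ x y T B).tgt = (tw φ c μ (step d τ x y T B)).tgt := rfl
  cases h : step (tw φ c μ d) τ x y T B
  cases h' : tw φ c μ (step d τ x y T B)
  rw [h, h'] at hlam hlab hrow hsrc htgt
  simp only at hlam hlab hrow hsrc htgt
  subst hlam hlab hrow hsrc htgt
  rfl

theorem Rv.good {d d' : Dat A V G} (h : Rv d d') (hd : Good d) : Good d' := by
  cases h with
  | mk τ x y T B h1 h2 h3 => exact hd.step (ne_of_lam h3) h1 h2 h3

theorem Rv.tw {d d' : Dat A V G} (h : Rv d d') (hd : Good d) (hμ : 0 < μ) :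
    Rv (tw φ c μ d) (tw φ c μ d') := by
  cases h with
  | mk τ x y T B h1 h2 h3 =>
    rw [← tw_step (ne_of_lam h3) (ends_eq hd h1 h2)]
    refine Rv.mk _ τ x y T B h1 h2 ?_
    exact div_lt_div_of_pos_right h3 hμ

theorem path_good {d d' : Dat A V G} (h : Relation.ReflTransGen Rv d d') (hd : Good d) :
    Good d' := by
  induction h with
  | refl => exact hd
  | tail _ h ih => exact h.good ih

theorem path_tw {d d' : Dat A V G} (h : Relation.ReflTransGen Rv d d') (hd : Good d)
    (hμ : 0 < μ) : Relation.ReflTransGen Rv (tw φ c μ d) (tw φ c μ d') := by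
  induction h with
  | refl => exact Relation.ReflTransGen.refl
  | tail h1 h2 ih => exact ih.tail (h2.tw (path_good h1 hd) hμ)

theorem path_iter {d : Dat A V G} (h : Relation.ReflTransGen Rv d (tw φ c μ d)) (hd : Good d)
    (hμ : 0 < μ) (k : ℕ) : Relation.ReflTransGen Rv d ((tw φ c μ)^[k] d) := by
  induction k with
  | zero => exact Relation.ReflTransGen.refl
  | succ k ih =>
    have h1 := path_tw ih hd hμ (φ := φ) (c := c)
    rw [Function.iterate_succ_apply']
    exact h.trans h1

/-- the accumulated gauge -/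
def cc (φ : G →* G) (c : V → G) : ℕ → V → G
  | 0, _ => 1
  | k + 1, v => φ (cc φ c k v) * c v

omit [DecidableEq A] in
theorem tw_iter (d : Dat A V G) (k : ℕ) :
    ((tw φ c μ)^[k] d).row = d.row ∧ ((tw φ c μ)^[k] d).src = d.src ∧
      ((tw φ c μ)^[k] d).tgt = d.tgt ∧ (∀ a, ((tw φ c μ)^[k] d).lam a = d.lam a / μ ^ k) ∧
      ∀ a, ((tw φ c μ)^[k] d).lab a
        = (cc φ c k (d.src a))⁻¹ * (hpow φ k) (d.lab a) * cc φ c k (d.tgt a) := by
  induction k with
  | zero =>
    refine ⟨rfl, rfl, rfl, fun a => by simp, fun a => ?_⟩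
    simp [cc, hpow]
  | succ k ih =>
    obtain ⟨h1, h2, h3, h4, h5⟩ := ih
    rw [Function.iterate_succ_apply']
    refine ⟨h1, h2, h3, ?_, ?_⟩
    · intro a
      show ((tw φ c μ)^[k] d).lam a / μ = _
      rw [h4, pow_succ, div_div]
    · intro a
      show (c (((tw φ c μ)^[k] d).src a))⁻¹ * φ (((tw φ c μ)^[k] d).lab a)
        * c (((tw φ c μ)^[k] d).tgt a) = _
      rw [h2, h3, h5, cc, cc]
      simp only [map_mul, map_inv, mul_inv_rev, mul_assoc]
      rfl

/-- the data with labels pushed forward -/
def mapd (φ : G →* G) (d : Dat A V G) : Dat A V G where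
  row := d.row
  lam := d.lam
  src := d.src
  tgt := d.tgt
  lab a := φ (d.lab a)

omit [DecidableEq A] in
theorem comp_mapd (φ : G →* G) (d : Dat A V G) (W : List (A × Bool)) :
    ∀ v w, comp (mapd φ d) v W w ↔ comp d v W w := by
  induction W with
  | nil => intro v w; rfl
  | cons z W ih =>
    intro v w
    simp only [comp, ih]
    rfl

theorem good_mapd (φ : G →* G) {d : Dat A V G} (hd : Good d) : Good (mapd φ d) := by
  refine ⟨hd.two, hd.sgn, hd.pos, ?_, ?_⟩
  · show wpr (fun a => φ (d.lab a)) (d.row true) = wpr (fun a => φ (d.lab a)) (d.row false)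
    rw [wpr_map, wpr_map, hd.rel]
  · obtain ⟨v, w, h1, h2⟩ := hd.cmp
    exact ⟨v, w, (comp_mapd φ d _ v w).2 h1, (comp_mapd φ d _ v w).2 h2⟩

omit [DecidableEq A] in
theorem cyc_mapd (φ : G →* G) (d : Dat A V G) : cyc (mapd φ d) = push φ (cyc d) := by
  rw [cyc, cyc, push_sub, push_fan, push_fan, map_one]
  rfl

variable [Fintype A]

/-- the filling of `φ^k z - z` -/
theorem fil_iter {d : Dat A V G} (hd : Good d)
    (h : Relation.ReflTransGen Rv d (tw φ c μ d)) (hμ : 1 < μ) (k : ℕ) :
    Fil ((56 * (Fintype.card A : ℝ) + 73) * ((Fintype.card A : ℝ) + 2)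
      * (∑ a, Real.logb 2 (μ ^ k * ((∑ b, d.lam b) / d.lam a)) + 1) + 16 * (Fintype.card A : ℝ))
      (push (hpow φ k) (cyc d) - cyc d) := by
  have hμ0 : 0 < μ := zero_lt_one.trans hμ
  have hp := path_iter h hd hμ0 k
  obtain ⟨h', hp'⟩ := lift_path hp (fun _ => 1)
  have hcost := path_cost (s0 := (d, fun _ => 1)) hd (fun _ => le_refl _) hp'
  have hone := one_le_of_path (s0 := (d, fun _ => 1)) (fun _ => le_refl _) hp'
  obtain ⟨e1, e2, e3, e4, e5⟩ := tw_iter (φ := φ) (c := c) (μ := μ) d k
  -- gauge
  have hgau : Fil (16 * (Fintype.card A : ℝ)) (cyc ((tw φ c μ)^[k] d) - cyc (mapd (hpow φ k) d)) := by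
    refine fil_gauge (good_mapd _ hd) (cc φ c k) e1 ?_
    intro a
    rw [e5]
    rfl
  rw [cyc_mapd] at hgau
  have hn : (0 : ℝ) ≤ Fintype.card A := Nat.cast_nonneg _
  have hsum : ∑ b, Real.logb 2 (h' b)
      ≤ ∑ a, Real.logb 2 (μ ^ k * ((∑ b, d.lam b) / d.lam a)) := by
    refine Finset.sum_le_sum fun a _ => ?_
    have h1 := height_le (s := ((tw φ c μ)^[k] d, h')) hd hp' a
    have h2 : h' a ≤ μ ^ k * ((∑ b, d.lam b) / d.lam a) := by
      refine h1.trans (le_of_eq ?_)
      show (∑ b, d.lam b) / ((tw φ c μ)^[k] d).lam a = _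
      rw [e4]
      have := (hd.pos a).ne'
      field_simp
    exact Real.logb_le_logb_of_le (by norm_num) (zero_lt_one.trans_le (hone a)) h2
  refine (hcost.sub hgau).of_eq ?_ ?_
  · have h3 : (56 * (Fintype.card A : ℝ) + 73) * ((Fintype.card A : ℝ) + 2)
        * (∑ b, Real.logb 2 (h' b) + 1)
        ≤ (56 * (Fintype.card A : ℝ) + 73) * ((Fintype.card A : ℝ) + 2)
        * (∑ a, Real.logb 2 (μ ^ k * ((∑ b, d.lam b) / d.lam a)) + 1) :=
      mul_le_mul_of_nonneg_left (by linarith) (by positivity)
    linarith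
  · abel

end Pool.Agent.Lib.FVol
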