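import Pool.Agent.Lib.FVol.Run

/-!
The two types of winners, the number of letters, and the cost of a whole run.
-/

set_option autoImplicit false

namespace Pool.Agent.Lib.FVol

variable {A V G : Type*} [DecidableEq A] [Group G]

theorem length_eq [Fintype A] (W : List (A × Bool)) : W.length = ∑ z, occ z W := by
  induction W with
  | nil => simp
  | cons u W ih =>
    rw [List.length_cons, ih]
    simp only [occ_cons, Finset.sum_add_distrib, Finset.sum_ite_eq, Finset.mem_univ, if_true]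

/-- the inversion as an equivalence -/
def sinvE : A × Bool ≃ A × Bool where
  toFun := sinv
  invFun := sinv
  left_inv := sinv_sinv
  right_inv := sinv_sinv

theorem length_sum [Fintype A] {d : Dat A V G} (hd : Good d) :
    (d.row true).length + (d.row false).length = 2 * Fintype.card A := by
  have h1 : ∀ W : List (A × Bool), ∑ z, occ (sinv z) W = ∑ z, occ z W := fun W =>
    Equiv.sum_comp (sinvE (A := A)) (fun z => occ z W)
  have h2 : ∑ z : A × Bool, (occ z (d.row true) + occ (sinv z) (d.row true) + occ z (d.row false)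
    + occ (sinv z) (d.row false)) = ∑ _z : A × Bool, 2 := Finset.sum_congr rfl fun z _ => hd.two z
  simp only [Finset.sum_add_distrib, h1, ← length_eq, Finset.sum_const, Finset.card_univ,
    Fintype.card_prod, Fintype.card_bool, smul_eq_mul] at h2
  omega

theorem length_row_le [Fintype A] {d : Dat A V G} (hd : Good d) (σ : Bool) :
    (d.row σ).length ≤ 2 * Fintype.card A := by
  have := length_sum hd
  cases σ <;> omega

theorem ne_fst_of_occ {x : A × Bool} {W : List (A × Bool)} (h1 : occ x W = 0)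
    (h2 : occ (sinv x) W = 0) : ∀ z ∈ W, z.1 ≠ x.1 := by
  intro z hz h
  rcases eq_or_sinv h with rfl | rfl
  · exact occ_eq_zero_iff.1 h1 hz
  · exact occ_eq_zero_iff.1 h2 hz

theorem types {d : Dat A V G} (hd : Good d) {τ : Bool} {x : A × Bool} {T : List (A × Bool)}
    (h1 : d.row τ = T ++ [x]) :
    ((∀ z ∈ T, z.1 ≠ x.1) ∧ ∃ B1 C, d.row (!τ) = B1 ++ x :: C ∧ (∀ z ∈ B1, z.1 ≠ x.1) ∧
      (∀ z ∈ C, z.1 ≠ x.1)) ∨ (∀ z ∈ d.row (!τ), z.1 ≠ x.1) := by
  have e1 := hd.two' τ x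
  have e2 := hd.sgn' τ x
  have e3 : occ x (d.row τ) = occ x T + 1 := by rw [h1, occ_append, occ_cons]; simp
  have e4 : occ (sinv x) (d.row τ) = occ (sinv x) T := by
    rw [h1, occ_append, occ_cons]
    simp [(sinv_ne x).symm]
  by_cases hq : occ x (d.row (!τ)) = 0
  · right
    exact ne_fst_of_occ hq (by omega)
  · left
    have f1 : occ x T = 0 := by omega
    have f2 : occ (sinv x) T = 0 := by omega
    have f3 : occ x (d.row (!τ)) = 1 := by omega
    have f4 : occ (sinv x) (d.row (!τ)) = 0 := by omega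
    refine ⟨ne_fst_of_occ f1 f2, ?_⟩
    have hmem : x ∈ d.row (!τ) := by
      by_contra h
      exact hq (occ_eq_zero_iff.2 h)
    obtain ⟨B1, C, hBC⟩ := List.append_of_mem hmem
    refine ⟨B1, C, hBC, ?_, ?_⟩
    · rw [hBC, occ_append, occ_cons] at f3 f4
      simp only [if_true] at f3
      exact ne_fst_of_occ (by omega) (by omega)
    · rw [hBC, occ_append, occ_cons] at f3 f4
      simp only [if_true] at f3
      exact ne_fst_of_occ (by omega) (by omega)

/-- runs of the first type -/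
theorem run_typeI {τ : Bool} {s s' : Dat A V G × (A → ℝ)} (hs : Good s.1)
    (h0 : ∀ a, 0 ≤ s.2 a) {x : A × Bool} {T B1 C : List (A × Bool)}
    (h1 : s.1.row τ = T ++ [x]) (h2 : s.1.row (!τ) = B1 ++ x :: C)
    (hT : ∀ z ∈ T, z.1 ≠ x.1) (hB : ∀ z ∈ B1, z.1 ≠ x.1) (hC : ∀ z ∈ C, z.1 ≠ x.1)
    {L : ℕ} (hr : Run τ (L + 1) s s') :
    ∃ k : ℕ, Fil (28 * (C.length : ℝ) + 73 + 62 * (Nat.log 2 k : ℕ)) (cyc s'.1 - cyc s.1) ∧
      (∀ B' y, s'.1.row (!τ) = B' ++ [y] → k * s.2 x.1 ≤ s'.2 y.1) ∧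
      ∃ a, k * s.2 x.1 ≤ s'.2 a := by
  -- `C` is not empty
  have hCne : C ≠ [] := by
    rintro rfl
    cases hr with
    | cons h _ =>
      have := (h.of h1 (B := B1) (y := x) h2).1
      exact lt_irrefl _ this
  have hm : 0 < C.length := List.length_pos_iff.2 hCne
  obtain ⟨k, r, hrm, hkr⟩ : ∃ k r, r < C.length ∧ L + 1 = k * C.length + r :=
    ⟨(L + 1) / C.length, (L + 1) % C.length, Nat.mod_lt _ hm, by
      rw [mul_comm]; exact (Nat.div_add_mod _ _).symm⟩
  rw [hkr] at hr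
  obtain ⟨s1, hr1, hr2⟩ := Run.split _ _ _ _ hr
  obtain ⟨f1, f2, f3, f4, f5⟩ := run_cycles x T B1 C hT hB hC k s s1 h1 h2 h0 hr1
  have h0' : ∀ a, 0 ≤ s1.2 a := fun a => (h0 a).trans (hr1.mono h0 a)
  have hs1 := hr1.good hs
  obtain ⟨C1, C2, hCC, hC2⟩ : ∃ C1 C2, C = C1 ++ C2 ∧ C2.length = r :=
    ⟨C.take (C.length - r), C.drop (C.length - r), (List.take_append_drop _ _).symm, by
      rw [List.length_drop]; omega⟩
  have hC1ne : C1 ≠ [] := by
    rintro rfl
    rw [List.nil_append] at hCC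
    rw [hCC] at hrm
    omega
  have hC1 : ∀ z ∈ C1, z.1 ≠ x.1 := fun z hz => hC z (by rw [hCC]; simp [hz])
  have hC2' : ∀ z ∈ C2, z.1 ≠ x.1 := fun z hz => hC z (by rw [hCC]; simp [hz])
  obtain ⟨g1, g2, _, _, _⟩ := run_partial x T B1 hT hB C2 C1 s1 s' f1 (by rw [f2, hCC]) hC1 hC2'
    h0' (by rw [hC2]; exact hr2)
  have hlast : ∀ y ∈ C, k * s.2 x.1 ≤ s'.2 y.1 := by
    intro y hy
    have a1 := f5 y hy
    have a2 := hr2.mono h0' y.1
    have a3 := h0 y.1
    linarith
  have hcomm : wpr s.1.lab C * ((wpr s.1.lab C) ^ k)⁻¹ = ((wpr s.1.lab C) ^ k)⁻¹ * wpr s.1.lab C :=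
    ((Commute.refl (wpr s.1.lab C)).pow_right k).inv_right
  refine ⟨k, ?_, ?_, ?_⟩
  · have c1 := fil_twist hs hT hB hC h1 h2 f1 f2 f3 f4 hcomm (fil_tt_neg_log (wpr s.1.lab C) k)
    have c2 := hr2.fil hs1
    refine (c2.add c1).of_eq ?_ ?_
    · have : (r : ℝ) ≤ C.length := by exact_mod_cast hrm.le
      linarith
    · abel
  · intro B' y hy
    rw [g2] at hy
    obtain ⟨C1', y', hC1'⟩ : ∃ C1' y', C1 = C1' ++ [y'] :=
      ⟨C1.dropLast, C1.getLast hC1ne, (List.dropLast_append_getLast hC1ne).symm⟩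
    have : B1 ++ x :: (C2 ++ C1) = (B1 ++ x :: (C2 ++ C1')) ++ [y'] := by rw [hC1']; simp
    rw [this] at hy
    obtain ⟨_, rfl⟩ := snoc_inj hy
    exact hlast y' (by rw [hCC, hC1']; simp)
  · obtain ⟨y, hy⟩ := List.exists_mem_of_ne_nil C hCne
    exact ⟨y.1, hlast y hy⟩

/-- runs of the second type shorten the other row -/
theorem run_typeII {τ : Bool} {n : ℕ} {s s' : Dat A V G × (A → ℝ)} (hr : Run τ n s s')
    {x : A × Bool} : ∀ {T : List (A × Bool)}, s.1.row τ = T ++ [x] →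
    (∀ z ∈ s.1.row (!τ), z.1 ≠ x.1) → (s'.1.row (!τ)).length + n = (s.1.row (!τ)).length := by
  induction hr with
  | zero s => intro T _ _; simp
  | @cons n s s1 s2 h _ ih =>
    intro T h1 h2
    obtain ⟨x', y, T', B, e1, e2, e3, e4, e5⟩ := h
    obtain ⟨rfl, rfl⟩ := snoc_inj (h1.symm.trans e1)
    have hB : ∀ z ∈ B, z.1 ≠ x.1 := fun z hz => h2 z (by rw [e2]; simp [hz])
    have r2 : s1.1.row (!τ) = B := by
      rw [e4, step_row_other, flatMap_sbs_of_notMem hB]
    have := ih (T := T.flatMap (sbs x y)) (by rw [e4, step_row_self])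
      (by rw [r2]; exact hB)
    rw [r2] at this
    rw [e2, List.length_append, List.length_singleton]
    omega

/-- cost of a run -/
theorem run_cost [Fintype A] {τ : Bool} {s s' : Dat A V G × (A → ℝ)} (hs : Good s.1)
    (h0 : ∀ a, 0 ≤ s.2 a) {x : A × Bool} {T : List (A × Bool)}
    (h1 : s.1.row τ = T ++ [x]) {L : ℕ} (hr : Run τ (L + 1) s s') :
    ∃ k : ℕ, Fil (56 * (Fintype.card A : ℝ) + 73 + 62 * (Nat.log 2 k : ℕ))
        (cyc s'.1 - cyc s.1) ∧
      (∀ B' y, s'.1.row (!τ) = B' ++ [y] → k * s.2 x.1 ≤ s'.2 y.1) ∧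
      ∃ a, k * s.2 x.1 ≤ s'.2 a := by
  rcases types hs h1 with ⟨hT, B1, C, h2, hB, hC⟩ | h2
  · obtain ⟨k, f1, f2, f3⟩ := run_typeI hs h0 h1 h2 hT hB hC hr
    refine ⟨k, f1.mono ?_, f2, f3⟩
    have hl := length_row_le hs (!τ)
    rw [h2, List.length_append, List.length_cons] at hl
    have : (C.length : ℝ) ≤ 2 * Fintype.card A := by exact_mod_cast (by omega)
    linarith
  · have hlen := run_typeII hr h1 h2
    have hl := length_row_le hs (!τ)
    have h0' : ∀ a, 0 ≤ s'.2 a := fun a => (h0 a).trans (hr.mono h0 a)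
    refine ⟨0, (hr.fil hs).mono ?_, ?_, ?_⟩
    · have : ((L + 1 : ℕ) : ℝ) ≤ 2 * Fintype.card A := by exact_mod_cast (by omega)
      have h3 : (0 : ℝ) ≤ Fintype.card A := Nat.cast_nonneg _
      simp only [Nat.log_zero_right, Nat.cast_zero, mul_zero, add_zero]
      linarith
    · intro B' y _
      simpa using h0' y.1
    · exact ⟨x.1, by simpa using h0' x.1⟩

end Pool.Agent.Lib.FVol
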