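import Pool.Agent.Lib.FVol.Bar

/-!
Words in signed letters, the fan chain of a labelled word, its behaviour under the Rauzy
substitution `x ↦ x y` and under a twist of one label.
-/

set_option autoImplicit false

namespace Pool.Agent.Lib.FVol

variable {A G : Type*}

/-- the inverse of a signed letter -/
def sinv (x : A × Bool) : A × Bool := (x.1, !x.2)

@[simp] theorem sinv_fst (x : A × Bool) : (sinv x).1 = x.1 := rfl
@[simp] theorem sinv_snd (x : A × Bool) : (sinv x).2 = !x.2 := rfl
@[simp] theorem sinv_sinv (x : A × Bool) : sinv (sinv x) = x := by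
  cases x; simp [sinv]

theorem sinv_ne (x : A × Bool) : sinv x ≠ x := by
  intro h
  have := congrArg Prod.snd h
  simp [sinv] at this

theorem eq_or_sinv {x z : A × Bool} (h : z.1 = x.1) : z = x ∨ z = sinv x := by
  rcases x with ⟨a, s⟩
  rcases z with ⟨b, t⟩
  simp only at h
  subst h
  cases s <;> cases t <;> simp [sinv]

/-- the Rauzy substitution `x ↦ x y`, `x⁻¹ ↦ y⁻¹ x⁻¹` -/
def sbs [DecidableEq A] (x y z : A × Bool) : List (A × Bool) :=
  if z = x then [x, y] else if z = sinv x then [sinv y, sinv x] else [z]

/-- the number of occurrences of a signed letter -/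
def occ [DecidableEq A] (x : A × Bool) (W : List (A × Bool)) : ℕ :=
  W.countP (fun z => decide (z = x))

section occ

variable [DecidableEq A]

@[simp] theorem occ_nil (x : A × Bool) : occ x [] = 0 := rfl

theorem occ_cons (x z : A × Bool) (W : List (A × Bool)) :
    occ x (z :: W) = occ x W + if z = x then 1 else 0 := by
  rw [occ, List.countP_cons]
  simp [occ]

@[simp] theorem occ_append (x : A × Bool) (W W' : List (A × Bool)) :
    occ x (W ++ W') = occ x W + occ x W' := by
  simp [occ, List.countP_append]

theorem sbs_self (x y : A × Bool) : sbs x y x = [x, y] := by simp [sbs]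

theorem sbs_sinv (x y : A × Bool) : sbs x y (sinv x) = [sinv y, sinv x] := by
  simp [sbs, sinv_ne]

theorem sbs_of_ne {x y z : A × Bool} (h : z.1 ≠ x.1) : sbs x y z = [z] := by
  have h1 : z ≠ x := fun e => h (by rw [e])
  have h2 : z ≠ sinv x := fun e => h (by rw [e]; rfl)
  simp [sbs, h1, h2]

theorem flatMap_sbs_of_notMem {x y : A × Bool} {W : List (A × Bool)}
    (h : ∀ z ∈ W, z.1 ≠ x.1) : W.flatMap (sbs x y) = W := by
  induction W with
  | nil => rfl
  | cons z W ih =>
    rw [List.flatMap_cons, sbs_of_ne (h z (by simp)), ih (fun z hz => h z (by simp [hz]))]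
    rfl

theorem occ_eq_zero_iff {x : A × Bool} {W : List (A × Bool)} :
    occ x W = 0 ↔ x ∉ W := by
  rw [occ, List.countP_eq_zero]
  constructor
  · intro h hx
    have := h x hx
    simp at this
  · intro h z hz
    simp only [decide_eq_true_eq]
    exact fun e => h (e ▸ hz)

/-- occurrences after the substitution -/
theorem occ_flatMap_sbs {x y : A × Bool} (hxy : y.1 ≠ x.1) (z : A × Bool)
    (W : List (A × Bool)) :
    occ z (W.flatMap (sbs x y)) =
      occ z W + (if z = y then occ x W else 0) + (if z = sinv y then occ (sinv x) W else 0) := by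
  induction W with
  | nil => simp
  | cons u W ih =>
    rw [List.flatMap_cons, occ_append, ih]
    have key : occ z (sbs x y u) = (if u = z then 1 else 0) + (if z = y then (if u = x then 1 else 0) else 0)
        + (if z = sinv y then (if u = sinv x then 1 else 0) else 0) := by
      by_cases hux : u = x
      · subst hux
        have h3 : u ≠ sinv u := (sinv_ne u).symm
        rw [sbs_self, occ_cons, occ_cons, occ_nil]
        simp only [h3, if_true, if_false, eq_comm (a := y) (b := z)]
        split_ifs <;> rfl
      · by_cases hux' : u = sinv x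
        · subst hux'
          rw [sbs_sinv, occ_cons, occ_cons, occ_nil]
          simp only [hux, if_true, if_false, eq_comm (a := sinv y) (b := z)]
          split_ifs <;> rfl
        · have h9 : sbs x y u = [u] := by simp [sbs, hux, hux']
          rw [h9, occ_cons, occ_nil]
          simp [hux, hux']
    rw [key, occ_cons, occ_cons, occ_cons]
    split_ifs <;> omega

end occ

section lab

variable [Group G]

/-- the label of a signed letter -/
def slab (g : A → G) (x : A × Bool) : G := if x.2 then g x.1 else (g x.1)⁻¹

theorem slab_sinv (g : A → G) (x : A × Bool) : slab g (sinv x) = (slab g x)⁻¹ := by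
  rcases x with ⟨a, s⟩
  cases s <;> simp [slab, sinv]

/-- the label of a word -/
def wpr (g : A → G) (W : List (A × Bool)) : G := (W.map (slab g)).prod

@[simp] theorem wpr_nil (g : A → G) : wpr g [] = 1 := rfl
@[simp] theorem wpr_cons (g : A → G) (x : A × Bool) (W : List (A × Bool)) :
    wpr g (x :: W) = slab g x * wpr g W := by simp [wpr]
@[simp] theorem wpr_append (g : A → G) (W W' : List (A × Bool)) :
    wpr g (W ++ W') = wpr g W * wpr g W' := by simp [wpr]

theorem slab_congr {g g' : A → G} {x : A × Bool} (h : g' x.1 = g x.1) :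
    slab g' x = slab g x := by simp [slab, h]

theorem wpr_congr {g g' : A → G} {W : List (A × Bool)} (h : ∀ z ∈ W, g' z.1 = g z.1) :
    wpr g' W = wpr g W := by
  induction W with
  | nil => rfl
  | cons z W ih =>
    rw [wpr_cons, wpr_cons, slab_congr (h z (by simp)), ih (fun z hz => h z (by simp [hz]))]

/-- correction of a negative letter -/
noncomputable def kap (g : A → G) (x : A × Bool) : C2 G :=
  if x.2 then 0 else -(e2 (g x.1) (g x.1)⁻¹ + e2 1 1)

theorem kap_congr {g g' : A → G} {x : A × Bool} (h : g' x.1 = g x.1) :
    kap g' x = kap g x := by simp [kap, h]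

theorem kap_add_sinv (g : A → G) (x : A × Bool) :
    kap g x + kap g (sinv x) = -(e2 (g x.1) (g x.1)⁻¹ + e2 1 1) := by
  rcases x with ⟨a, s⟩
  cases s <;> simp [kap, sinv]

/-- the fan chain of a labelled word, starting with the prefix `p` -/
noncomputable def fan (g : A → G) : G → List (A × Bool) → C2 G
  | _, [] => 0
  | p, x :: W => e2 p (slab g x) + kap g x + fan g (p * slab g x) W

@[simp] theorem fan_nil (g : A → G) (p : G) : fan g p [] = 0 := rfl
theorem fan_cons (g : A → G) (p : G) (x : A × Bool) (W : List (A × Bool)) :
    fan g p (x :: W) = e2 p (slab g x) + kap g x + fan g (p * slab g x) W := rfl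

theorem fan_append (g : A → G) (p : G) (W W' : List (A × Bool)) :
    fan g p (W ++ W') = fan g p W + fan g (p * wpr g W) W' := by
  induction W generalizing p with
  | nil => simp
  | cons x W ih =>
    rw [List.cons_append, fan_cons, fan_cons, ih, wpr_cons, mul_assoc]
    abel

theorem fan_congr {g g' : A → G} {W : List (A × Bool)} (h : ∀ z ∈ W, g' z.1 = g z.1) (p : G) :
    fan g' p W = fan g p W := by
  induction W generalizing p with
  | nil => rfl
  | cons z W ih =>
    rw [fan_cons, fan_cons, slab_congr (h z (by simp)), kap_congr (h z (by simp)),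
      ih (fun z hz => h z (by simp [hz]))]

theorem fan_shift (g : A → G) (u : G) (W : List (A × Bool)) : ∀ p : G,
    Fil (W.length : ℝ) (fan g (u * p) W - fan g p W - e2 u (p * wpr g W) + e2 u p) := by
  induction W with
  | nil =>
    intro p
    refine Fil.zero.of_eq (by simp) ?_
    simp
  | cons x W ih =>
    intro p
    have h1 := (fil_e3 u p (slab g x)).neg
    have h2 := ih (p * slab g x)
    refine (h1.add h2).of_eq (by push_cast [List.length_cons]; linarith) ?_
    rw [fan_cons, fan_cons, wpr_cons, mul_assoc, mul_assoc]
    abel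

theorem fan_shift_one (g : A → G) (u : G) (W : List (A × Bool)) :
    Fil (W.length : ℝ) (fan g u W - fan g 1 W - e2 u (wpr g W) + e2 u 1) := by
  have := fan_shift g u W 1
  simpa using this

theorem fil_q (g : A → G) (x : A × Bool) :
    Fil 3 (kap g x + kap g (sinv x) + (e2 (slab g x) (slab g x)⁻¹ + e2 1 1)) := by
  rw [kap_add_sinv]
  rcases x with ⟨a, s⟩
  cases s
  · simp only [slab, Bool.false_eq_true, if_false, inv_inv]
    have h1 := (fil_e3 (g a) (g a)⁻¹ (g a))
    have h2 := (fil_one_left (g a))
    have h3 := (fil_one_right (g a)).neg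
    refine ((h1.add h2).add h3).of_eq (by norm_num) ?_
    simp only [mul_inv_cancel, inv_mul_cancel]
    abel
  · simp only [slab, if_true]
    refine (Fil.zero' (by norm_num)).of_eq (le_refl _) ?_
    abel

/-- the correction chain of the substitution -/
noncomputable def sub2 (g g' : A → G) (x y : A × Bool) : C2 G :=
  e2 (slab g' x) (slab g y) + kap g' x + kap g y - kap g x

theorem fil_sub2 {g g' : A → G} {x y : A × Bool}
    (hx : slab g' x * slab g y = slab g x) :
    Fil 12 (e2 (slab g y)⁻¹ (slab g' x)⁻¹ + kap g (sinv y) + kap g' (sinv x) - kap g (sinv x)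
      + sub2 g g' x y) := by
  have h1 := fil_q g' x
  have h2 := fil_q g y
  have h3 := (fil_q g x).neg
  have h4 := fil_e3 (slab g y) (slab g y)⁻¹ (slab g' x)⁻¹
  have h5 := (fil_e3 (slab g' x) (slab g y) ((slab g y)⁻¹ * (slab g' x)⁻¹)).neg
  have h6 := fil_one_left ((slab g' x)⁻¹)
  refine (((((h1.add h2).add h3).add h4).add h5).add h6).of_eq (by norm_num) ?_
  have e : slab g y * ((slab g y)⁻¹ * (slab g' x)⁻¹) = (slab g' x)⁻¹ := by group
  rw [← hx, e, mul_inv_rev, mul_inv_cancel, sub2]
  abel

variable [DecidableEq A]

theorem fan_sbs {g g' : A → G} {x y : A × Bool} (hxy : y.1 ≠ x.1)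
    (hg : ∀ a, a ≠ x.1 → g' a = g a) (hx : slab g' x * slab g y = slab g x)
    (W : List (A × Bool)) : ∀ p : G,
    Fil (13 * ((occ x W : ℝ) + occ (sinv x) W))
      (fan g' p (W.flatMap (sbs x y)) - fan g p W
        - ((occ x W : ℤ) - occ (sinv x) W) • sub2 g g' x y) := by
  have hy : slab g' y = slab g y := slab_congr (hg _ hxy)
  have hky : kap g' y = kap g y := kap_congr (hg _ hxy)
  have hky' : kap g' (sinv y) = kap g (sinv y) := kap_congr (hg _ hxy)
  induction W with
  | nil =>
    intro p
    refine Fil.zero.of_eq (by simp) ?_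
    simp
  | cons z W ih =>
    intro p
    by_cases hzx : z = x
    · subst hzx
      rw [List.flatMap_cons, sbs_self]
      have h1 := (fil_e3 p (slab g' z) (slab g y)).neg
      have h2 := ih (p * slab g z)
      refine (h1.add h2).of_eq ?_ ?_
      · rw [occ_cons, occ_cons]
        have : z ≠ sinv z := (sinv_ne z).symm
        simp only [if_true, this, if_false]
        push_cast
        linarith
      · rw [occ_cons, occ_cons]
        have : z ≠ sinv z := (sinv_ne z).symm
        simp only [if_true, this, if_false, List.cons_append, List.nil_append]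
        rw [fan_cons, fan_cons, fan_cons, hy, hky, mul_assoc, hx]
        have e : (((occ z W + 1 : ℕ) : ℤ) - ((occ (sinv z) W + 0 : ℕ) : ℤ)) • sub2 g g' z y
            = (e2 (slab g' z) (slab g y) + kap g' z + kap g y - kap g z)
              + ((occ z W : ℤ) - occ (sinv z) W) • sub2 g g' z y := by
          push_cast
          rw [show ((occ z W : ℤ) + 1 - ((occ (sinv z) W : ℤ) + 0))
            = 1 + ((occ z W : ℤ) - occ (sinv z) W) by ring, add_smul, one_smul]
          rfl
        rw [e]
        abel
    · by_cases hzx' : z = sinv x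
      · subst hzx'
        rw [List.flatMap_cons, sbs_sinv]
        have h1 := (fil_e3 p (slab g y)⁻¹ (slab g' x)⁻¹).neg
        have h2 := ih (p * slab g (sinv x))
        have h3 := fil_sub2 hx
        refine ((h1.add h2).add h3).of_eq ?_ ?_
        · rw [occ_cons, occ_cons]
          simp only [sinv_ne, if_true, if_false]
          push_cast
          linarith
        · rw [occ_cons, occ_cons]
          simp only [sinv_ne, if_true, if_false, List.cons_append, List.nil_append]
          have hsx : slab g (sinv x) = (slab g y)⁻¹ * (slab g' x)⁻¹ := by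
            rw [slab_sinv, ← hx, mul_inv_rev]
          rw [fan_cons, fan_cons, fan_cons, slab_sinv g' y, slab_sinv g' x, hy, hky', hsx,
            mul_assoc]
          have e : (((occ x W + 0 : ℕ) : ℤ) - ((occ (sinv x) W + 1 : ℕ) : ℤ)) • sub2 g g' x y
              = - sub2 g g' x y + ((occ x W : ℤ) - occ (sinv x) W) • sub2 g g' x y := by
            push_cast
            rw [show ((occ x W : ℤ) + 0 - ((occ (sinv x) W : ℤ) + 1))
              = -1 + ((occ x W : ℤ) - occ (sinv x) W) by ring, add_smul, neg_one_smul]
          rw [e]
          abel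
      · have hz1 : z.1 ≠ x.1 := by
          intro h
          rcases eq_or_sinv h with h | h
          · exact hzx h
          · exact hzx' h
        have h2 := ih (p * slab g z)
        rw [List.flatMap_cons, sbs_of_ne hz1]
        refine h2.of_eq ?_ ?_
        · rw [occ_cons, occ_cons]
          simp [hzx, hzx']
        · rw [occ_cons, occ_cons]
          simp only [hzx, hzx', if_false, List.cons_append, List.nil_append, add_zero]
          rw [fan_cons, fan_cons, slab_congr (hg _ hz1), kap_congr (hg _ hz1)]
          abel

theorem wpr_sbs {g g' : A → G} {x y : A × Bool} (hxy : y.1 ≠ x.1)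
    (hg : ∀ a, a ≠ x.1 → g' a = g a) (hx : slab g' x * slab g y = slab g x)
    (W : List (A × Bool)) : wpr g' (W.flatMap (sbs x y)) = wpr g W := by
  have hy : slab g' y = slab g y := slab_congr (hg _ hxy)
  induction W with
  | nil => rfl
  | cons z W ih =>
    rw [List.flatMap_cons, wpr_append, ih, wpr_cons]
    congr 1
    by_cases hzx : z = x
    · subst hzx
      rw [sbs_self]
      simp [hy, hx]
    · by_cases hzx' : z = sinv x
      · subst hzx'
        rw [sbs_sinv]
        simp [slab_sinv, hy, ← hx]
      · have hz1 : z.1 ≠ x.1 := by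
          intro h
          rcases eq_or_sinv h with h | h
          · exact hzx h
          · exact hzx' h
        rw [sbs_of_ne hz1]
        simp [slab_congr (hg _ hz1)]

end lab

/-- the core computation of a twist `x ↦ x v`, `v` commuting with `w`, `t x = b x w` -/
theorem fil_twist_core {G : Type*} [Group G] (t b x w v : G) (h : t * x = b * x * w)
    (hv : w * v = v * w) :
    Fil 6 (e2 t (x * v) - e2 t x - e2 b (x * v) + e2 b x - e2 (b * x * v) w + e2 (b * x * v) 1
      + e2 (b * x) w - e2 (b * x) 1 - tt w v) := by
  have h1 := fil_e3 t x v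
  have h2 := (fil_e3 b x v).neg
  have h3 := fil_e3 (b * x) v w
  have h4 := (fil_e3 (b * x) w v).neg
  have h5 := (fil_one_right (b * x)).neg
  have h6 := (fil_one_right (b * x * v))
  refine (((((h1.add h2).add h3).add h4).add h5).add h6).of_eq (by norm_num) ?_
  rw [h, hv, tt]
  abel

end Pool.Agent.Lib.FVol
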